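import Pool.Agent.H43.X6.Chn6
import Pool.Agent.H43.SL.Chn
import Pool.Agent.H43.G.R_pool_sql_team_seeded_620a6dc7.helper24_UT_.Lsq
import Pool.Agent.H43.G.R_pool_sql_team_seeded_f72693b1.W81.R1.Mean

set_option autoImplicit false

/-! The large sieve for `log` on the primes minus the sieve model in short intervals. -/

namespace Pool.Agent.H43.X6.BC


open Finset
open Pool.Agent.helper24_UT (NN S_LSQ)
open Pool.Agent.helper24_UT.Sil2 (ev_pow ev_log)
open Pool.Agent.H373R2.T7 (ev_log' ev_L')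
open Pool.Agent.W81.R1 (gt gI gt_abs gI_abs)
open Pool.Agent.H43.SL (SIg)
open Pool.Agent.H43.X6 (c_SIg6)

theorem NN_nonneg' (a : ℤ → ℝ) (u : ℤ) (W q : ℕ) : 0 ≤ NN a u W q :=
  sum_nonneg fun _ _ => sq_nonneg _

theorem NN_congr' {a a' : ℤ → ℝ} {u : ℤ} {W : ℕ} (h : ∀ m, u < m → m ≤ u + W → a m = a' m) (q : ℕ) :
    NN a u W q = NN a' u W q := by
  unfold NN
  refine sum_congr rfl fun r _ => ?_
  congr 1
  refine sum_congr rfl fun m hm => ?_
  rw [mem_filter, mem_Ioc] at hm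
  exact h m hm.1.1 hm.1.2

/-- dyadic decomposition of the moduli -/
theorem dyad (f : ℕ → ℝ) (hf : ∀ q, 0 ≤ f q) (Q I : ℕ) (hI : Q ≤ 2 ^ I) :
    ∑ q ∈ Icc 1 Q, f q ≤ ∑ i ∈ range (I + 1), 2 / (2 : ℝ) ^ i * ∑ q ∈ Icc (1 : ℕ) (2 ^ i), (q : ℝ) * f q := by
  have h1 : ∀ q ∈ Icc 1 Q, Nat.clog 2 q ∈ range (I + 1) := by
    intro q hq
    rw [mem_Icc] at hq
    rw [mem_range]
    have : Nat.clog 2 q ≤ I := Nat.clog_le_of_le_pow (hq.2.trans hI)
    omega
  rw [← sum_fiberwise_of_maps_to h1]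
  apply sum_le_sum
  intro i _
  rw [mul_sum]
  calc ∑ q ∈ (Icc 1 Q).filter (fun q => Nat.clog 2 q = i), f q ≤
      ∑ q ∈ (Icc 1 Q).filter (fun q => Nat.clog 2 q = i), 2 / (2 : ℝ) ^ i * ((q : ℝ) * f q) := by
        apply sum_le_sum
        intro q hq
        rw [mem_filter, mem_Icc] at hq
        have h2 : (2 : ℝ) ^ i ≤ 2 * q := by
          rcases Nat.eq_zero_or_pos i with h0 | h0
          · rw [h0, pow_zero]
            have : (1 : ℝ) ≤ q := by exact_mod_cast hq.1.1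
            linarith
          · have h3 : 1 < q := by
              by_contra hc
              have : q = 1 := by omega
              rw [this] at hq
              have := hq.2
              simp at this
              omega
            have h4 := Nat.pow_pred_clog_lt_self (by norm_num : 1 < 2) h3
            rw [hq.2] at h4
            have h5 : (2 : ℝ) ^ i.pred < q := by exact_mod_cast h4
            have h6 : i = i.pred + 1 := by
              rw [Nat.pred_eq_sub_one]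
              omega
            rw [h6, pow_succ]
            linarith
        have h3 : (0 : ℝ) < 2 ^ i := by positivity
        have h4 : 1 ≤ 2 / (2 : ℝ) ^ i * q := by
          rw [div_mul_eq_mul_div, le_div_iff₀ h3]
          linarith
        calc f q = 1 * f q := (one_mul _).symm
          _ ≤ (2 / (2 : ℝ) ^ i * q) * f q := mul_le_mul_of_nonneg_right h4 (hf q)
          _ = _ := by ring
    _ ≤ _ := by
        apply sum_le_sum_of_subset_of_nonneg
        · intro q hq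
          rw [mem_filter, mem_Icc] at hq
          rw [mem_Icc]
          refine ⟨hq.1.1, ?_⟩
          rw [← hq.2]
          exact Nat.le_pow_clog (by norm_num) q
        · intro q _ _
          have := hf q
          positivity

/-- the large sieve in almost all short intervals -/
theorem an1 {θ : ℝ} (hθ : 1 / 6 < θ) (A : ℕ) : ∃ E₀ : ℕ, ∀ E₁ : ℕ, ∃ X₀ : ℕ, ∀ X : ℕ, X₀ ≤ X → ∀ z : ℕ,
    (Real.log X) ^ E₀ ≤ z → (z : ℝ) ≤ (Real.log X) ^ E₁ → ∀ Q : ℕ, (Q : ℝ) ≤ (X : ℝ) ^ (1 / 24 : ℝ) →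
    ∀ W : ℕ, (X : ℝ) ^ θ ≤ W → W ≤ X →
    ∑ u ∈ range X, ∑ q ∈ Icc 1 Q, NN (gI z) (u : ℤ) W q ≤ X * (W : ℝ) ^ 2 / (Real.log X) ^ A := by
  obtain ⟨C, hC1, hC⟩ := Pool.Agent.helper24_UT.Lsq.main
  obtain ⟨E₀, hE⟩ := c_SIg6 hθ (2 * A + 20) (A + 8)
  refine ⟨E₀, fun E₁ => ?_⟩
  obtain ⟨X1, h1⟩ := hE E₁
  obtain ⟨N0, hN0⟩ := gt_abs E₁
  obtain ⟨X2, h2⟩ := ev_L' (1000 * C)
  obtain ⟨X3, h3⟩ := Filter.eventually_atTop.1 (ev_pow (A + 8) (1 / 12) 2 (by norm_num))
  refine ⟨max (max X1 N0) (max X2 (max X3 3)), fun X hX z hz1 hz2 Q hQ W hW hWX => ?_⟩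
  have c1 := ((le_max_left _ _).trans (le_max_left _ _)).trans hX
  have c2 := ((le_max_right _ _).trans (le_max_left _ _)).trans hX
  have c3 := ((le_max_left _ _).trans (le_max_right _ _)).trans hX
  have c4 := ((le_max_left _ _).trans ((le_max_right _ _).trans (le_max_right _ _))).trans hX
  have c5 := ((le_max_right _ _).trans ((le_max_right _ _).trans (le_max_right _ _))).trans hX
  have hL := h2 X c3
  have d3 := h3 X c4
  set L := Real.log X with hLd
  have hX3 : (3 : ℝ) ≤ X := by exact_mod_cast c5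
  have hX0 : (0 : ℝ) < X := by linarith
  have hX1 : (1 : ℝ) ≤ X := by linarith
  have hL1 : 1000 ≤ L := by linarith
  have hL0 : 0 < L := by linarith
  have hp1 : ∀ n : ℕ, 1 ≤ L ^ n := fun n => one_le_pow₀ (by linarith)
  have hz1' : 1 ≤ z := by exact_mod_cast (hp1 _).trans hz1
  -- the sixteenth root
  set s := (X : ℝ) ^ (1 / 24 : ℝ) with hs
  have hs0 : 0 < s := by positivity
  have hs1 : 1 ≤ s := Real.one_le_rpow hX1 (by norm_num)
  have hs2 : s ^ 2 = (X : ℝ) ^ (1 / 12 : ℝ) := by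
    rw [hs, ← Real.rpow_natCast, ← Real.rpow_mul hX0.le]
    norm_num
  have hs4 : s ^ 4 = (X : ℝ) ^ (1 / 6 : ℝ) := by
    rw [hs, ← Real.rpow_natCast, ← Real.rpow_mul hX0.le]
    norm_num
  have hs24 : s ^ 24 = X := by
    rw [hs, ← Real.rpow_natCast, ← Real.rpow_mul hX0.le]
    norm_num
  rw [← hs2] at d3
  have hW4 : s ^ 4 ≤ W := by
    rw [hs4]
    exact (Real.rpow_le_rpow_of_exponent_le hX1 hθ.le).trans hW
  have hW0 : (0 : ℝ) < W := lt_of_lt_of_le (by positivity) hW4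
  -- the truncated function
  have hlog2 : Real.log ((2 * X : ℕ) : ℝ) ≤ 2 * L := by
    push_cast
    rw [Real.log_mul (by norm_num) (by positivity)]
    have : Real.log 2 ≤ L := by
      have := Real.log_two_lt_d9
      linarith
    linarith
  have hlog2' : L ≤ Real.log ((2 * X : ℕ) : ℝ) := by
    apply Real.log_le_log hX0
    push_cast
    linarith
  obtain ⟨a, ha⟩ : ∃ a : ℤ → ℝ, a = fun m : ℤ => if m ≤ 2 * (X : ℤ) then gI z m else 0 := ⟨_, rfl⟩
  have haP : ∀ m, |a m| ≤ 2 * L := by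
    intro m
    rw [ha]
    dsimp only
    split_ifs with hc
    · apply gI_abs z (2 * X) (2 * L) (by linarith) _ m (by exact_mod_cast hc)
      intro n hn1 hn2
      exact (hN0 (2 * X) (by omega) z hz1' (hz2.trans (pow_le_pow_left₀ hL0.le hlog2' _)) n hn1 hn2).trans hlog2
    · rw [abs_zero]; linarith
  have hNa : ∀ u ∈ range X, ∀ q, NN (gI z) (u : ℤ) W q = NN a (u : ℤ) W q := by
    intro u hu q
    rw [mem_range] at hu
    apply NN_congr'
    intro m _ hm
    rw [ha]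
    dsimp only
    rw [if_pos]
    have : (u : ℤ) + W ≤ 2 * X := by
      have : u + W ≤ 2 * X := by omega
      exact_mod_cast this
    linarith
  -- parameters
  obtain ⟨D₀, hD⟩ : ∃ D₀ : ℕ, D₀ = ⌊L ^ (A + 8)⌋₊ := ⟨_, rfl⟩
  have hDle : (D₀ : ℝ) ≤ L ^ (A + 8) := by rw [hD]; exact Nat.floor_le (by positivity)
  have hDge : L ^ (A + 8) / 2 ≤ D₀ := by
    have h5 : L ^ (A + 8) < D₀ + 1 := by rw [hD]; exact Nat.lt_floor_add_one _
    have h6 : L ≤ L ^ (A + 8) := by
      calc L = L ^ 1 := (pow_one L).symm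
        _ ≤ _ := pow_le_pow_right₀ (by linarith) (by omega)
    linarith
  have hD1 : 1 ≤ D₀ := by
    have : (1 : ℝ) ≤ D₀ := by
      have h6 : L ≤ L ^ (A + 8) := by
        calc L = L ^ 1 := (pow_one L).symm
          _ ≤ _ := pow_le_pow_right₀ (by linarith) (by omega)
      linarith
    exact_mod_cast this
  have hD0 : (0 : ℝ) < D₀ := by exact_mod_cast hD1
  obtain ⟨I, hI⟩ : ∃ I, I = Nat.clog 2 Q := ⟨_, rfl⟩
  have hQI : Q ≤ 2 ^ I := by rw [hI]; exact Nat.le_pow_clog (by norm_num) Q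
  have hIs : ((2 : ℝ) ^ I) ≤ 2 * s := by
    rcases Nat.lt_or_ge 1 Q with hQ1 | hQ1
    · have h4 := Nat.pow_pred_clog_lt_self (by norm_num : 1 < 2) hQ1
      rw [← hI] at h4
      have h5 : (2 : ℝ) ^ I.pred < Q := by exact_mod_cast h4
      rcases Nat.eq_zero_or_pos I with h0 | h0
      · rw [h0, pow_zero]; linarith
      · have h6 : I = I.pred + 1 := by
          rw [Nat.pred_eq_sub_one]
          omega
        rw [h6, pow_succ]
        linarith
    · have : I = 0 := by rw [hI]; exact Nat.clog_of_right_le_one hQ1 2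
      rw [this, pow_zero]
      linarith
  have hIL : ((I + 1 : ℕ) : ℝ) ≤ 2 * L := by
    have h5 := Real.log_le_log (by positivity) hIs
    rw [Real.log_pow, Real.log_mul (by norm_num) (by positivity)] at h5
    have h6 : L = 24 * Real.log s := by
      rw [hLd]
      conv_lhs => rw [← hs24]
      rw [Real.log_pow]
      norm_num
    have h7 := Real.log_two_gt_d9
    have h8 := Real.log_two_lt_d9
    have h9 : (0 : ℝ) ≤ I := Nat.cast_nonneg I
    push_cast
    nlinarith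
  -- the bound for each `u`
  have hu : ∀ u ∈ range X, ∑ q ∈ Icc 1 Q, NN (gI z) (u : ℤ) W q ≤
      (2 * L) * (2 * ∑ d ∈ Icc 1 D₀, NN (gI z) (u : ℤ) W d + 2 * (C * (W * (2 * L) ^ 2 * ((W : ℝ) / D₀ + 2 * s)))) := by
    intro u hu
    rw [sum_congr rfl (fun q _ => hNa u hu q), sum_congr rfl (fun d _ => hNa u hu d)]
    refine (dyad (fun q => NN a (u : ℤ) W q) (fun q => NN_nonneg' _ _ _ _) Q I hQI).trans ?_
    have hSn : 0 ≤ ∑ d ∈ Icc 1 D₀, NN a (u : ℤ) W d := sum_nonneg fun _ _ => NN_nonneg' _ _ _ _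
    have h5 : ∀ i ∈ range (I + 1), 2 / (2 : ℝ) ^ i * ∑ q ∈ Icc (1 : ℕ) (2 ^ i), (q : ℝ) * NN a (u : ℤ) W q ≤
        2 * ∑ d ∈ Icc 1 D₀, NN a (u : ℤ) W d + 2 * (C * (W * (2 * L) ^ 2 * ((W : ℝ) / D₀ + 2 * s))) := by
      intro i hi
      rw [mem_range] at hi
      have h6 := hC a (u : ℤ) (2 ^ i) W D₀ (2 * L) hD1 (by linarith) haP
      have h7 : (0 : ℝ) < 2 ^ i := by positivity
      have h8 := mul_le_mul_of_nonneg_left h6 (show (0 : ℝ) ≤ 2 / 2 ^ i by positivity)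
      refine h8.trans ?_
      push_cast
      have h9 : (2 : ℝ) ^ i ≤ 2 * s := by
        refine le_trans ?_ hIs
        exact pow_le_pow_right₀ (by norm_num) (by omega)
      have e1 : 2 / (2 : ℝ) ^ i * (2 ^ i * ∑ d ∈ Icc 1 D₀, NN a (u : ℤ) W d +
          C * (2 ^ i * W * (2 * L) ^ 2 * (W / D₀ + 2 ^ i))) =
          2 * ∑ d ∈ Icc 1 D₀, NN a (u : ℤ) W d + 2 * (C * (W * (2 * L) ^ 2 * ((W : ℝ) / D₀ + 2 ^ i))) := by
        field_simp
      rw [e1]
      gcongr
    refine (sum_le_card_nsmul _ _ _ h5).trans ?_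
    rw [card_range, nsmul_eq_mul]
    apply mul_le_mul_of_nonneg_right hIL
    positivity
  refine (sum_le_sum hu).trans ?_
  rw [← mul_sum, sum_add_distrib, ← mul_sum, sum_comm, sum_const, card_range, nsmul_eq_mul]
  have hd : ∀ d ∈ Icc 1 D₀, ∑ u ∈ range X, NN (gI z) (u : ℤ) W d ≤ X * (W : ℝ) ^ 2 / L ^ (2 * A + 20) := by
    intro d hd
    rw [mem_Icc] at hd
    exact h1 X c1 z hz1 hz2 d hd.1 (le_trans (by exact_mod_cast hd.2) hDle) W hW hWX
  have h5 : ∑ d ∈ Icc 1 D₀, ∑ u ∈ range X, NN (gI z) (u : ℤ) W d ≤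
      L ^ (A + 8) * (X * (W : ℝ) ^ 2 / L ^ (2 * A + 20)) := by
    refine (sum_le_card_nsmul _ _ _ hd).trans ?_
    rw [Nat.card_Icc, Nat.add_sub_cancel, nsmul_eq_mul]
    apply mul_le_mul_of_nonneg_right hDle
    positivity
  -- numerics
  obtain ⟨B, hB⟩ : ∃ B : ℝ, B = X * (W : ℝ) ^ 2 / L ^ A := ⟨_, rfl⟩
  have hB0 : 0 ≤ B := by rw [hB]; positivity
  rw [← hB]
  have t1 : (2 * L) * (2 * (L ^ (A + 8) * (X * (W : ℝ) ^ 2 / L ^ (2 * A + 20)))) ≤ B / 4 := by
    have e1 : X * (W : ℝ) ^ 2 / L ^ (2 * A + 20) = B / L ^ (A + 20) := by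
      rw [hB, show 2 * A + 20 = A + (A + 20) by ring, pow_add L A (A + 20), div_mul_eq_div_div]
    have e2 : L ^ (A + 20) = L ^ (A + 9) * L ^ 11 := by rw [← pow_add]
    have e3 : (2 * L) * (2 * (L ^ (A + 8) * (B / (L ^ (A + 9) * L ^ 11)))) = B * (4 / L ^ 11) := by
      rw [pow_succ L (A + 8)]
      field_simp
      ring
    rw [e1, e2, e3]
    have e4 : (4 : ℝ) / L ^ 11 ≤ 1 / 4 := by
      rw [div_le_div_iff₀ (by positivity) (by norm_num)]
      have : L ≤ L ^ 11 := by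
        calc L = L ^ 1 := (pow_one L).symm
          _ ≤ _ := pow_le_pow_right₀ (by linarith) (by norm_num)
      linarith
    have := mul_le_mul_of_nonneg_left e4 hB0
    linarith
  have t2 : (W : ℝ) / D₀ + 2 * s ≤ 3 * W / L ^ (A + 8) := by
    have e1 : (W : ℝ) / D₀ ≤ 2 * W / L ^ (A + 8) := by
      calc (W : ℝ) / D₀ ≤ W / (L ^ (A + 8) / 2) := div_le_div_of_nonneg_left hW0.le (by positivity) hDge
        _ = _ := by field_simp
    have e2 : 2 * s ≤ W / L ^ (A + 8) := by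
      rw [le_div_iff₀ (by positivity)]
      calc 2 * s * L ^ (A + 8) = s * (2 * L ^ (A + 8)) := by ring
        _ ≤ s * s ^ 2 := by gcongr
        _ = s ^ 3 := by ring
        _ ≤ s ^ 4 := pow_le_pow_right₀ hs1 (by norm_num)
        _ ≤ W := hW4
    have e3 : 3 * (W : ℝ) / L ^ (A + 8) = 2 * W / L ^ (A + 8) + W / L ^ (A + 8) := by ring
    linarith
  have t3 : (2 * L) * (X * (2 * (C * (W * (2 * L) ^ 2 * ((W : ℝ) / D₀ + 2 * s))))) ≤ B / 4 := by
    calc (2 * L) * (X * (2 * (C * (W * (2 * L) ^ 2 * ((W : ℝ) / D₀ + 2 * s))))) ≤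
          (2 * L) * (X * (2 * (C * (W * (2 * L) ^ 2 * (3 * W / L ^ (A + 8)))))) := by
          gcongr
      _ = B * (48 * C / L ^ 5) := by
          rw [hB, pow_add L A 8]
          field_simp
          ring
      _ ≤ B * (1 / 4) := by
          apply mul_le_mul_of_nonneg_left _ hB0
          rw [div_le_div_iff₀ (by positivity) (by norm_num)]
          have : L ≤ L ^ 5 := by
            calc L = L ^ 1 := (pow_one L).symm
              _ ≤ _ := pow_le_pow_right₀ (by linarith) (by norm_num)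
          linarith
      _ = _ := by ring
  have t4 := mul_le_mul_of_nonneg_left h5 (show (0 : ℝ) ≤ (2 * L) * 2 by positivity)
  have e5 : (2 * L) * (2 * ∑ y ∈ Icc 1 D₀, ∑ x ∈ range X, NN (gI z) (x : ℤ) W y +
      X * (2 * (C * (W * (2 * L) ^ 2 * ((W : ℝ) / D₀ + 2 * s))))) =
      (2 * L) * 2 * ∑ y ∈ Icc 1 D₀, ∑ x ∈ range X, NN (gI z) (x : ℤ) W y +
      (2 * L) * (X * (2 * (C * (W * (2 * L) ^ 2 * ((W : ℝ) / D₀ + 2 * s))))) := by ring
  rw [e5]
  have e6 : (2 * L) * 2 * (L ^ (A + 8) * (X * (W : ℝ) ^ 2 / L ^ (2 * A + 20))) =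
    (2 * L) * (2 * (L ^ (A + 8) * (X * (W : ℝ) ^ 2 / L ^ (2 * A + 20)))) := by ring
  rw [e6] at t4
  linarith

end Pool.Agent.H43.X6.BC
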