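import Pool.Agent.H43.SL.Sie
import Pool.Agent.H43.G.R_seed8.H442R2.EHI.Model

set_option autoImplicit false

/-! The sieve model in progressions to moduli up to `X ^ (1 / 16)`. -/

namespace Pool.Agent.H43.X6.BC


open Finset
open Pool.Agent.helper24_UT.Si2 (conv nu_val adm1 reidx)
open Pool.Agent.helper24_UT.Sil2 (ev_pow ev_log)
open Pool.Agent.H373R2.T7 (lamI lamzI lamz Vz pz mem_pz ev_log' ev_L' lamz_nonneg)
open Pool.Agent.Y820.LF

theorem prod_ge {ι : Type} (s : Finset ι) (x : ι → ℝ) (hx : ∀ i ∈ s, 0 ≤ x i ∧ x i ≤ 1) :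
    1 - ∑ i ∈ s, x i ≤ ∏ i ∈ s, (1 - x i) ∧ 0 ≤ ∏ i ∈ s, (1 - x i) ∧ ∏ i ∈ s, (1 - x i) ≤ 1 := by
  classical
  induction s using Finset.induction_on with
  | empty => simp
  | insert i s hi ih =>
    obtain ⟨h1, h2, h3⟩ := ih (fun j hj => hx j (mem_insert_of_mem hj))
    obtain ⟨h4, h5⟩ := hx i (mem_insert_self _ _)
    rw [prod_insert hi, sum_insert hi]
    refine ⟨?_, mul_nonneg (by linarith) h2, mul_le_one₀ (by linarith) h2 h3⟩
    nlinarith

/-- the singular series for one linear form -/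
theorem sing_val' {q : ℕ} {h : ℤ} (hq : 1 ≤ q) (hqh : IsCoprime (q : ℤ) h) (z : ℕ) (hz : 1 ≤ z) :
    |singF (fun _ : Fin 1 => (q : ℤ)) (fun _ : Fin 1 => h) z - (q : ℝ) / (Nat.totient q : ℝ)| ≤
      (q : ℝ) / (Nat.totient q : ℝ) * (2 * Real.log q / z) := by
  have hz0 : (0 : ℝ) < z := by exact_mod_cast hz
  have e0 : singF (fun _ : Fin 1 => (q : ℤ)) (fun _ : Fin 1 => h) z =
      ∏ p ∈ q.primeFactors.filter (fun p => p ≤ z), (1 - (p : ℝ)⁻¹)⁻¹ := by
    unfold singF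
    have e1 : ∀ p ∈ (Icc 1 z).filter Nat.Prime, (1 - (nuF (fun _ : Fin 1 => (q : ℤ)) (fun _ : Fin 1 => h) p : ℝ) / p) /
        (1 - 1 / (p : ℝ)) ^ 1 = if p ∣ q then (1 - (p : ℝ)⁻¹)⁻¹ else 1 := by
      intro p hp
      rw [mem_filter] at hp
      have h2 : (2 : ℝ) ≤ p := by exact_mod_cast hp.2.two_le
      rw [nu_val hp.2 hqh]
      split_ifs
      · simp
      · rw [pow_one]
        have h3 : (1 : ℝ) - 1 / p ≠ 0 := by
          have : (1 : ℝ) / p ≤ 1 / 2 := one_div_le_one_div_of_le (by norm_num) h2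
          linarith
        simp only [Nat.cast_one]
        exact div_self h3
    rw [prod_congr rfl e1, ← prod_filter]
    apply prod_congr _ (fun _ _ => rfl)
    ext p
    rw [mem_filter, mem_filter, mem_filter, mem_Icc, Nat.mem_primeFactors]
    constructor
    · rintro ⟨⟨⟨_, h2⟩, h3⟩, h4⟩
      exact ⟨⟨h3, h4, by omega⟩, h2⟩
    · rintro ⟨⟨h3, h4, _⟩, h2⟩
      exact ⟨⟨⟨h3.one_lt.le, h2⟩, h3⟩, h4⟩
  have e3 : ((Nat.totient q : ℕ) : ℝ) = (q : ℝ) * ∏ p ∈ q.primeFactors, (1 - (p : ℝ)⁻¹) := by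
    have h := congrArg (fun x : ℚ => (x : ℝ)) (Nat.totient_eq_mul_prod_factors q)
    push_cast at h
    exact h
  have hq0 : (q : ℝ) ≠ 0 := by positivity
  have hφ : (0 : ℝ) < (Nat.totient q : ℝ) := by exact_mod_cast Nat.totient_pos.2 hq
  obtain ⟨Pi, hPi⟩ : ∃ Pi, Pi = ∏ p ∈ q.primeFactors.filter (fun p => ¬ p ≤ z), (1 - (p : ℝ)⁻¹) := ⟨_, rfl⟩
  have hpos : ∀ p ∈ q.primeFactors, 0 < (1 : ℝ) - (p : ℝ)⁻¹ := by
    intro p hp
    have h2 : (2 : ℝ) ≤ p := by exact_mod_cast (Nat.prime_of_mem_primeFactors hp).two_le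
    have : (p : ℝ)⁻¹ ≤ 1 / 2 := by
      rw [← one_div]
      exact one_div_le_one_div_of_le (by norm_num) h2
    linarith
  have e4 : ∏ p ∈ q.primeFactors, (1 - (p : ℝ)⁻¹) =
      (∏ p ∈ q.primeFactors.filter (fun p => p ≤ z), (1 - (p : ℝ)⁻¹)) * Pi := by
    rw [hPi]
    exact (prod_filter_mul_prod_filter_not _ _ _).symm
  have hA0 : 0 < ∏ p ∈ q.primeFactors.filter (fun p => p ≤ z), (1 - (p : ℝ)⁻¹) :=
    prod_pos fun p hp => hpos p (mem_filter.1 hp).1
  have hP0 : 0 < Pi := by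
    rw [hPi]
    exact prod_pos fun p hp => hpos p (mem_filter.1 hp).1
  have e5 : singF (fun _ : Fin 1 => (q : ℤ)) (fun _ : Fin 1 => h) z =
      (q : ℝ) / (Nat.totient q : ℝ) * Pi := by
    rw [e0, e3, e4, prod_inv_distrib]
    field_simp
  obtain ⟨g1, g2, g3⟩ := prod_ge (q.primeFactors.filter (fun p => ¬ p ≤ z)) (fun p => (p : ℝ)⁻¹) (by
    intro p hp
    have hp' := hpos p (mem_filter.1 hp).1
    exact ⟨by positivity, by linarith⟩)
  rw [← hPi] at g1 g2 g3
  have h6 : ∑ p ∈ q.primeFactors.filter (fun p => ¬ p ≤ z), (p : ℝ)⁻¹ ≤ 2 * Real.log q / z := by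
    have h7 : ∀ p ∈ q.primeFactors.filter (fun p => ¬ p ≤ z), (p : ℝ)⁻¹ ≤ (z : ℝ)⁻¹ := by
      intro p hp
      have := (mem_filter.1 hp).2
      push Not at this
      have h8 : (z : ℝ) ≤ p := by exact_mod_cast this.le
      exact inv_anti₀ hz0 h8
    refine (sum_le_card_nsmul _ _ _ h7).trans ?_
    rw [nsmul_eq_mul, div_eq_mul_inv]
    apply mul_le_mul_of_nonneg_right _ (by positivity)
    have h9 : ((q.primeFactors.filter (fun p => ¬ p ≤ z)).card : ℝ) ≤ (q.primeFactors.card : ℝ) := by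
      exact_mod_cast card_filter_le _ _
    refine h9.trans ?_
    have h10 : (2 : ℝ) ^ q.primeFactors.card ≤ q := by
      have h11 : 2 ^ q.primeFactors.card ≤ ∏ p ∈ q.primeFactors, p := by
        rw [← prod_const]
        exact Finset.prod_le_prod' fun p hp => (Nat.prime_of_mem_primeFactors hp).two_le
      have h12 := Nat.le_of_dvd hq (Nat.prod_primeFactors_dvd q)
      exact_mod_cast h11.trans h12
    have h13 := Real.log_le_log (by positivity) h10
    rw [Real.log_pow] at h13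
    have := Real.log_two_gt_d9
    have h14 : (0 : ℝ) ≤ q.primeFactors.card := Nat.cast_nonneg _
    nlinarith
  have h15 : 0 ≤ (q : ℝ) / (Nat.totient q : ℝ) := by positivity
  rw [e5]
  have e6 : (q : ℝ) / (Nat.totient q : ℝ) * Pi - (q : ℝ) / (Nat.totient q : ℝ) =
      (q : ℝ) / (Nat.totient q : ℝ) * (Pi - 1) := by ring
  rw [e6, abs_mul, abs_of_nonneg h15]
  apply mul_le_mul_of_nonneg_left _ h15
  rw [abs_le]
  constructor <;> linarith

/-- the model in progressions in short intervals of length at least `X ^ (1 / 6)` -/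
theorem cop5 (E₁ U : ℕ) : ∃ X₀ : ℕ, ∀ X : ℕ, X₀ ≤ X → ∀ z : ℕ, (Real.log X) ^ (U + 4) ≤ z →
    (z : ℝ) ≤ (Real.log X) ^ E₁ → ∀ q : ℕ, 1 ≤ q → (q : ℝ) ≤ (X : ℝ) ^ (1 / 24 : ℝ) →
    ∀ W : ℕ, (X : ℝ) ^ (1 / 6 : ℝ) ≤ W →
    ∀ r : ℕ, r < q → r.Coprime q → ∀ u : ℕ,
    |(W : ℝ) / (Nat.totient q : ℝ) - ∑ n ∈ (Ioc u (u + W)).filter (fun n => n % q = r), lamz z n| ≤
      W / q / (Real.log X) ^ U := by
  obtain ⟨n0, h0⟩ := t_main0 1 (E₁ + 1) (U + 1) le_rfl
  obtain ⟨n1, h1⟩ := ev_L' (12 ^ (E₁ + 1) + 6 * 12 ^ (U + 1) + 100)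
  obtain ⟨n3, h3⟩ := Filter.eventually_atTop.1 (ev_pow (U + 1) (1 / 24) 40 (by norm_num))
  refine ⟨max (max (n0 ^ 12) n1) (max n3 1), fun X hX z hz1 hz2 q hq hqB W hW r hr hrq u => ?_⟩
  have c0 := ((le_max_left _ _).trans (le_max_left _ _)).trans hX
  have c1 := ((le_max_right _ _).trans (le_max_left _ _)).trans hX
  have c3 := ((le_max_left _ _).trans (le_max_right _ _)).trans hX
  have c4 := ((le_max_right _ _).trans (le_max_right _ _)).trans hX
  have d1 := h1 X c1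
  have d3 := h3 X c3
  have hX1 : (1 : ℝ) ≤ X := by exact_mod_cast c4
  have hX0 : (0 : ℝ) < X := by linarith
  set L := Real.log X with hL
  have p1 : (1 : ℝ) ≤ 12 ^ (E₁ + 1) := one_le_pow₀ (by norm_num)
  have p2 : (1 : ℝ) ≤ 12 ^ (U + 1) := one_le_pow₀ (by norm_num)
  have hL1 : 100 ≤ L := by linarith
  have hL0 : 0 < L := by linarith
  have hLU : 1 ≤ L ^ (U + 1) := one_le_pow₀ (by linarith)
  have hLU0 : 1 ≤ L ^ U := one_le_pow₀ (by linarith)
  have hq0 : (0 : ℝ) < q := by exact_mod_cast hq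
  have hq1 : (1 : ℝ) ≤ q := by exact_mod_cast hq
  -- the sixteenth root
  set s := (X : ℝ) ^ (1 / 24 : ℝ) with hs
  have hs4 : s ^ 4 = (X : ℝ) ^ (1 / 6 : ℝ) := by
    rw [hs, ← Real.rpow_natCast, ← Real.rpow_mul hX0.le]
    norm_num
  have hs24 : s ^ 24 = X := by
    rw [hs, ← Real.rpow_natCast, ← Real.rpow_mul hX0.le]
    norm_num
  have hs0 : 0 ≤ s := Real.rpow_nonneg hX0.le _
  have hs40 : 40 ≤ s := by nlinarith
  obtain ⟨a, N, hsum, hN, hua⟩ := reidx u W q r hq hr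
  rw [abs_le] at hN
  have hW2 : s ^ 4 ≤ W := by rw [hs4]; exact hW
  have hW0 : 0 < (W : ℝ) := lt_of_lt_of_le (by positivity) hW2
  -- W / q and N
  obtain ⟨V, hV⟩ : ∃ V : ℝ, V = W / q := ⟨_, rfl⟩
  have hVs : s ^ 3 ≤ V := by
    rw [hV, le_div_iff₀ hq0]
    calc s ^ 3 * q ≤ s ^ 3 * s := by gcongr
      _ = s ^ 4 := by ring
      _ ≤ W := hW2
  have hWV : (W : ℝ) = q * V := by rw [hV]; field_simp
  have hN1' : V - 1 ≤ N := by
    have e1 : (q : ℝ) * (V - 1) ≤ q * N := by rw [mul_sub, ← hWV]; linarith [hN.1]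
    exact le_of_mul_le_mul_left e1 hq0
  have hN2' : (N : ℝ) ≤ V + 1 := by
    have e1 : (q : ℝ) * N ≤ q * (V + 1) := by rw [mul_add, ← hWV]; linarith [hN.2]
    exact le_of_mul_le_mul_left e1 hq0
  have hs3 : s ^ 2 * 40 ≤ s ^ 3 := by
    have : s ^ 3 = s ^ 2 * s := by ring
    rw [this]
    gcongr
  have hs2 : 1600 ≤ s ^ 2 := by nlinarith
  have hNs : s ^ 2 ≤ N := by linarith
  have hN0 : (0 : ℝ) < N := by linarith
  have hV1 : 1 ≤ V := by linarith
  have hN2 : (N : ℝ) ≤ 2 * V := by linarith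
  have hNn : n0 ≤ N := by
    have e1 : (n0 : ℝ) ^ 12 ≤ (s ^ 2) ^ 12 := by
      have : (s ^ 2) ^ 12 = s ^ 24 := by ring
      rw [this, hs24]
      exact_mod_cast c0
    have e2 : (n0 : ℝ) ≤ s ^ 2 := by
      by_contra hc
      push Not at hc
      have := pow_lt_pow_left₀ hc (by positivity) (by norm_num : (12 : ℕ) ≠ 0)
      linarith
    exact_mod_cast e2.trans hNs
  have hLs : L = 24 * Real.log s := by
    rw [hL]
    conv_lhs => rw [← hs24]
    rw [Real.log_pow]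
    norm_num
  have hlogN : L / 12 ≤ Real.log N := by
    have e1 : Real.log (s ^ 2) ≤ Real.log N := Real.log_le_log (by positivity) hNs
    rw [Real.log_pow] at e1
    push_cast at e1
    linarith
  have hzN : (z : ℝ) ≤ Real.log N ^ (E₁ + 1) := by
    have e1 : L ^ E₁ ≤ (12 * Real.log N) ^ E₁ := pow_le_pow_left₀ hL0.le (by linarith) _
    have e2 : (12 : ℝ) ^ E₁ ≤ Real.log N := by
      have : (12 : ℝ) ^ (E₁ + 1) ≤ L := by linarith
      rw [pow_succ] at this
      linarith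
    have e3 : 0 ≤ Real.log N := by linarith
    calc (z : ℝ) ≤ L ^ E₁ := hz2
      _ ≤ (12 * Real.log N) ^ E₁ := e1
      _ = 12 ^ E₁ * Real.log N ^ E₁ := mul_pow _ _ _
      _ ≤ Real.log N * Real.log N ^ E₁ := mul_le_mul_of_nonneg_right e2 (by positivity)
      _ = Real.log N ^ (E₁ + 1) := by ring
  have hz1' : 1 ≤ z := by
    have : (1 : ℝ) ≤ z := le_trans (one_le_pow₀ (by linarith)) hz1
    exact_mod_cast this
  have hN1 : 1 ≤ N := by exact_mod_cast hN0
  set H : ℤ := (q : ℤ) * ((a : ℤ) - 1) + r with hH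
  have hcop : IsCoprime (q : ℤ) H := by
    have e1 : IsCoprime (q : ℤ) (r : ℤ) := (Nat.isCoprime_iff_coprime.2 hrq).symm
    have e2 : H = (r : ℤ) + (q : ℤ) * ((a : ℤ) - 1) := by rw [hH]; ring
    rw [e2]
    exact e1.add_mul_left_right _
  have hpos : PosF (fun _ : Fin 1 => (q : ℤ)) (fun _ : Fin 1 => H) N := by
    intro i
    have e1 : (u : ℤ) < q * a + r := by exact_mod_cast hua
    have e0 : (0 : ℤ) ≤ u := Int.natCast_nonneg u
    have e2 : (1 : ℤ) ≤ q + H := by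
      rw [hH]
      nlinarith
    refine ⟨e2, ?_⟩
    have e3 : (q : ℤ) * 1 ≤ q * N := by
      apply mul_le_mul_of_nonneg_left _ (Int.natCast_nonneg q)
      exact_mod_cast hN1
    simp only
    linarith
  have hm := h0 N hNn z hz1' hzN (fun _ : Fin 1 => (q : ℤ)) (fun _ : Fin 1 => H) hpos (adm1 hcop)
  have hsv := sing_val' hq hcop z hz1'
  have hterm : ∑ n ∈ Icc 1 N, ∏ _i : Fin 1, lamzI z ((q : ℤ) * (n : ℤ) + H) =
      ∑ n ∈ (Ioc u (u + W)).filter (fun n => n % q = r), lamz z n := by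
    rw [hsum]
    apply sum_congr rfl
    intro k hk
    rw [mem_Icc] at hk
    rw [prod_const, card_univ, Fintype.card_fin, pow_one]
    have e1 : (q : ℤ) * (k : ℤ) + H = ((q * (a + k - 1) + r : ℕ) : ℤ) := by
      rw [hH]
      push_cast [Nat.cast_sub (show 1 ≤ a + k by omega)]
      ring
    unfold lamzI
    rw [e1]
    have e2 : (1 : ℤ) ≤ ((q * (a + k - 1) + r : ℕ) : ℤ) := by
      have e3 : q * a ≤ q * (a + k - 1) := Nat.mul_le_mul_left q (by omega)
      have e4 : 1 ≤ q * (a + k - 1) + r := by omega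
      exact_mod_cast e4
    rw [if_pos e2, Int.toNat_natCast]
  rw [hterm] at hm
  -- assembling
  set T := ∑ n ∈ (Ioc u (u + W)).filter (fun n => n % q = r), lamz z n with hT
  set Sg := singF (fun _ : Fin 1 => (q : ℤ)) (fun _ : Fin 1 => H) z with hSg
  have hφ : (1 : ℝ) ≤ (Nat.totient q : ℝ) := by exact_mod_cast Nat.totient_pos.2 hq
  have hφ0 : (0 : ℝ) < (Nat.totient q : ℝ) := by linarith
  obtain ⟨ω, hω⟩ : ∃ ω : ℝ, ω = (q : ℝ) / (Nat.totient q : ℝ) := ⟨_, rfl⟩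
  rw [← hω] at hsv
  have hω0 : 0 ≤ ω := by rw [hω]; positivity
  have hlq : Real.log q ≤ L := by
    have e1 : Real.log q ≤ Real.log s := Real.log_le_log hq0 hqB
    linarith
  have hlq0 : 0 ≤ Real.log q := Real.log_natCast_nonneg q
  have hωL : ω ≤ 4 * L := by
    have e1 := Pool.Agent.H442R2.EHI.Mdl.tot_lower q hq
    rw [hω, div_le_iff₀ hφ0]
    refine e1.trans ?_
    apply mul_le_mul_of_nonneg_right _ hφ0.le
    linarith
  have hWω : (W : ℝ) / (Nat.totient q : ℝ) = ω * V := by rw [hω, hV]; field_simp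
  have f1 : |ω * V - ω * N| ≤ V / (4 * L ^ U) := by
    rw [← mul_sub, abs_mul, abs_of_nonneg hω0]
    have e1 : |V - N| ≤ 1 := by
      rw [abs_le]
      constructor <;> linarith
    calc ω * |V - N| ≤ (4 * L) * 1 := mul_le_mul hωL e1 (abs_nonneg _) (by positivity)
      _ ≤ V / (4 * L ^ U) := by
          rw [le_div_iff₀ (by positivity)]
          calc 4 * L * 1 * (4 * L ^ U) = 16 * L ^ (U + 1) := by ring
            _ ≤ 40 * L ^ (U + 1) := by gcongr; norm_num
            _ ≤ s := d3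
            _ ≤ s ^ 3 := by
                calc s = s ^ 1 := (pow_one s).symm
                  _ ≤ s ^ 3 := pow_le_pow_right₀ (by linarith) (by norm_num)
            _ ≤ V := hVs
  have f2 : |Sg * N - ω * N| ≤ V / (4 * L ^ U) := by
    rw [← sub_mul, abs_mul, abs_of_pos hN0]
    have hz0 : (0 : ℝ) < z := by exact_mod_cast hz1'
    have e1 : ω * (2 * Real.log q / z) ≤ 8 * L ^ 2 / L ^ (U + 4) := by
      calc ω * (2 * Real.log q / z) ≤ (4 * L) * (2 * L / L ^ (U + 4)) := by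
            apply mul_le_mul hωL _ (by positivity) (by positivity)
            apply div_le_div₀ (by positivity) (by linarith) (by positivity) hz1
        _ = _ := by ring
    calc |Sg - ω| * N ≤ (8 * L ^ 2 / L ^ (U + 4)) * (2 * V) := by
          apply mul_le_mul (hsv.trans e1) hN2 hN0.le (by positivity)
      _ = (V / (4 * L ^ U)) * (64 / L ^ 2) := by
          rw [pow_add]
          field_simp
          ring
      _ ≤ (V / (4 * L ^ U)) * 1 := by
          apply mul_le_mul_of_nonneg_left _ (by positivity)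
          rw [div_le_one (by positivity)]
          nlinarith
      _ = _ := mul_one _
  have f3 : (N : ℝ) / Real.log N ^ (U + 1) ≤ V / (2 * L ^ U) := by
    have e1 : (L / 12) ^ (U + 1) ≤ Real.log N ^ (U + 1) := pow_le_pow_left₀ (by positivity) hlogN _
    have e2 : 0 < (L / 12) ^ (U + 1) := by positivity
    calc (N : ℝ) / Real.log N ^ (U + 1) ≤ 2 * V / (L / 12) ^ (U + 1) := by
          apply div_le_div₀ (by positivity) hN2 e2 e1
      _ = V * (2 * 12 ^ (U + 1) / L) / L ^ U := by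
          rw [div_pow, pow_succ L U]
          field_simp
      _ ≤ V * (1 / 2) / L ^ U := by
          apply div_le_div_of_nonneg_right _ (by positivity)
          apply mul_le_mul_of_nonneg_left _ (by linarith)
          rw [div_le_iff₀ hL0]
          linarith
      _ = V / (2 * L ^ U) := by ring
  have f4 : V / (4 * L ^ U) + V / (4 * L ^ U) + V / (2 * L ^ U) = V / L ^ U := by
    field_simp
    ring
  have f5 : ω * V - T = (ω * V - ω * N) - (Sg * N - ω * N) - (T - Sg * N) := by ring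
  rw [hWω, ← hV, f5, ← f4]
  rw [abs_le] at f1 f2
  have hm' := hm.trans f3
  rw [abs_le] at hm'
  rw [abs_le]
  constructor <;> linarith [f1.1, f1.2, f2.1, f2.2, hm'.1, hm'.2]

end Pool.Agent.H43.X6.BC
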