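import Pool.Agent.H43.X6.BC.An1
import Pool.Agent.H43.X6.BC.An2
import Pool.Agent.H43.BC.AV1

set_option autoImplicit false

/-! The Barban-Davenport-Halberstam theorem in almost all short intervals. -/

namespace Pool.Agent.H43.X6.BC

open Pool.Agent.H43.BC

open Finset
open Pool.Agent.helper24_UT (NN)
open Pool.Agent.helper24_UT.Sil2 (ev_pow ev_log)
open Pool.Agent.H373R2.T7 (lamz ev_log' ev_L')
open Pool.Agent.W81.R1 (gt gI)

theorem convg (z u W q r : ℕ) :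
    ∑ m ∈ (Ioc (u : ℤ) (u + W)).filter (fun m => m % (q : ℤ) = (r : ℤ)), gI z m =
    ∑ n ∈ (Ioc u (u + W)).filter (fun n => n % q = r), gt z n := by
  symm
  refine sum_nbij' (fun n : ℕ => (n : ℤ)) (fun m : ℤ => m.toNat) ?_ ?_ ?_ ?_ ?_
  · intro n hn
    rw [mem_filter, mem_Ioc] at hn ⊢
    obtain ⟨⟨h1, h2⟩, h3⟩ := hn
    refine ⟨⟨by exact_mod_cast h1, by exact_mod_cast h2⟩, ?_⟩
    rw [← h3]
    exact (Int.natCast_mod n q).symm
  · intro m hm
    rw [mem_filter, mem_Ioc] at hm ⊢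
    obtain ⟨⟨h1, h2⟩, h3⟩ := hm
    have h4 : ((m.toNat : ℕ) : ℤ) = m := Int.toNat_of_nonneg (by omega)
    refine ⟨⟨by omega, by omega⟩, ?_⟩
    have h5 : ((m.toNat % q : ℕ) : ℤ) = (r : ℤ) := by
      rw [Int.natCast_mod, h4]
      exact h3
    exact_mod_cast h5
  · intro n _
    simp
  · intro m hm
    rw [mem_filter, mem_Ioc] at hm
    exact Int.toNat_of_nonneg (by omega)
  · intro n hn
    rw [mem_filter, mem_Ioc] at hn
    unfold gI
    have h1 : (1 : ℤ) ≤ (n : ℤ) := by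
      have := hn.1.1
      omega
    rw [if_pos h1]
    simp

theorem Fs_split (R z w W k b : ℕ) (hw : R + 1 ≤ w) (hb : b < k) (hbk : b.Coprime k) (e : ℝ)
    (he : |(W : ℝ) / (Nat.totient k : ℝ) -
      ∑ n ∈ (Ioc (w - 1) (w - 1 + W)).filter (fun n => n % k = b), lamz z n| ≤ e) :
    Fs R w W k b ^ 2 ≤ 2 * (∑ m ∈ (Ioc ((w - 1 : ℕ) : ℤ) ((w - 1 : ℕ) + W)).filter
      (fun m => m % (k : ℤ) = (b : ℤ)), gI z m) ^ 2 + 2 * e ^ 2 := by
  rw [convg]
  have e1 : (Ico w (w + W)).filter (fun v => v ≡ b [MOD k]) =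
      (Ioc (w - 1) (w - 1 + W)).filter (fun n => n % k = b) := by
    ext v
    rw [mem_filter, mem_filter, mem_Ico, mem_Ioc]
    unfold Nat.ModEq
    rw [Nat.mod_eq_of_lt hb]
    constructor
    · rintro ⟨h1, h2⟩
      exact ⟨by omega, h2⟩
    · rintro ⟨h1, h2⟩
      exact ⟨by omega, h2⟩
  unfold Fs
  rw [if_pos hbk, e1]
  have e2 : ∑ n ∈ (Ioc (w - 1) (w - 1 + W)).filter (fun n => n % k = b), gt z n =
      ∑ n ∈ (Ioc (w - 1) (w - 1 + W)).filter (fun n => n % k = b), th R n -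
      ∑ n ∈ (Ioc (w - 1) (w - 1 + W)).filter (fun n => n % k = b), lamz z n := by
    rw [← sum_sub_distrib]
    refine sum_congr rfl fun n hn => ?_
    rw [mem_filter, mem_Ioc] at hn
    unfold gt th
    have : R < n := by omega
    simp only [this, and_true]
  rw [e2]
  set a := ∑ n ∈ (Ioc (w - 1) (w - 1 + W)).filter (fun n => n % k = b), th R n
  set c := ∑ n ∈ (Ioc (w - 1) (w - 1 + W)).filter (fun n => n % k = b), lamz z n
  set d := (W : ℝ) / (Nat.totient k : ℝ)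
  rw [sq_abs]
  have h1 : (d - c) ^ 2 ≤ e ^ 2 := by
    rw [← sq_abs (d - c)]
    exact pow_le_pow_left₀ (abs_nonneg _) he 2
  nlinarith [sq_nonneg ((a - c) + (d - c))]

/-- Barban-Davenport-Halberstam in almost all short intervals of length at least `X ^ θ` -/
theorem bdhs {θ : ℝ} (hθ : 1 / 6 < θ) (A : ℕ) : ∃ X₀ : ℕ, ∀ X : ℕ, X₀ ≤ X →
    ∀ W : ℕ, (X : ℝ) ^ θ ≤ W → W ≤ X → ∀ R Q : ℕ, (Q : ℝ) ≤ (X : ℝ) ^ (1 / 24 : ℝ) →
    ∑ w ∈ Ico (R + 1) X, ∑ k ∈ Icc 1 Q, ∑ b ∈ (range k).filter (fun b => b.Coprime k),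
      Fs R w W k b ^ 2 ≤ X * (W : ℝ) ^ 2 / (Real.log X) ^ A := by
  obtain ⟨E₀, h1⟩ := an1 hθ (A + 1)
  obtain ⟨E, hE⟩ : ∃ E, E = E₀ + (A + 2 + 4) := ⟨_, rfl⟩
  obtain ⟨X1, h1⟩ := h1 (E + 1)
  obtain ⟨X2, h2⟩ := cop5 (E + 1) (A + 2)
  obtain ⟨X3, h3⟩ := ev_L' 8
  refine ⟨max (max X1 X2) (max X3 3), fun X hX W hW hWX R Q hQ => ?_⟩
  have c1 := ((le_max_left _ _).trans (le_max_left _ _)).trans hX
  have c2 := ((le_max_right _ _).trans (le_max_left _ _)).trans hX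
  have c3 := ((le_max_left _ _).trans (le_max_right _ _)).trans hX
  have c4 := ((le_max_right _ _).trans (le_max_right _ _)).trans hX
  have hL := h3 X c3
  set L := Real.log X with hLd
  have hX3 : (3 : ℝ) ≤ X := by exact_mod_cast c4
  have hX0 : (0 : ℝ) < X := by linarith
  have hX1 : (1 : ℝ) ≤ X := by linarith
  have hL0 : 0 < L := by linarith
  have hp1 : ∀ n : ℕ, 1 ≤ L ^ n := fun n => one_le_pow₀ (by linarith)
  obtain ⟨z, hz⟩ : ∃ z : ℕ, z = ⌈L ^ E⌉₊ := ⟨_, rfl⟩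
  have hz1 : L ^ E ≤ z := by rw [hz]; exact Nat.le_ceil _
  have hz2 : (z : ℝ) ≤ L ^ (E + 1) := by
    have h5 : (z : ℝ) < L ^ E + 1 := by rw [hz]; exact Nat.ceil_lt_add_one (by positivity)
    have h6 := hp1 E
    rw [pow_succ]
    nlinarith
  have hz3 : L ^ E₀ ≤ z := (pow_le_pow_right₀ (by linarith) (by omega)).trans hz1
  have hz4 : L ^ (A + 2 + 4) ≤ z := (pow_le_pow_right₀ (by linarith) (by omega)).trans hz1
  have hW4 : (X : ℝ) ^ (1 / 6 : ℝ) ≤ W := (Real.rpow_le_rpow_of_exponent_le hX1 hθ.le).trans hW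
  have g1 := h1 X c1 z hz3 hz2 Q hQ W hW hWX
  have g2 : ∀ q ∈ Icc 1 Q, ∀ r : ℕ, r < q → r.Coprime q → ∀ u : ℕ,
      |(W : ℝ) / (Nat.totient q : ℝ) - ∑ n ∈ (Ioc u (u + W)).filter (fun n => n % q = r), lamz z n| ≤
      W / q / L ^ (A + 2) := by
    intro q hq r hr hrq u
    rw [mem_Icc] at hq
    exact h2 X c2 z hz4 hz2 q hq.1 (le_trans (by exact_mod_cast hq.2) hQ) W hW4 r hr hrq u
  have key : ∀ w ∈ Ico (R + 1) X, ∑ k ∈ Icc 1 Q, ∑ b ∈ (range k).filter (fun b => b.Coprime k),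
      Fs R w W k b ^ 2 ≤ 2 * ∑ k ∈ Icc 1 Q, NN (gI z) ((w - 1 : ℕ) : ℤ) W k +
        2 * ((W : ℝ) ^ 2 / L ^ (2 * A + 4)) * ∑ k ∈ Icc 1 Q, ((k : ℝ))⁻¹ := by
    intro w hw
    rw [mem_Ico] at hw
    rw [mul_sum, mul_sum, ← sum_add_distrib]
    apply sum_le_sum
    intro k hk
    have hk1 := (mem_Icc.1 hk).1
    have hk0 : (0 : ℝ) < k := by exact_mod_cast hk1
    calc ∑ b ∈ (range k).filter (fun b => b.Coprime k), Fs R w W k b ^ 2 ≤
        ∑ b ∈ (range k).filter (fun b => b.Coprime k),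
          (2 * (∑ m ∈ (Ioc ((w - 1 : ℕ) : ℤ) ((w - 1 : ℕ) + W)).filter
      (fun m => m % (k : ℤ) = (b : ℤ)), gI z m) ^ 2 + 2 * (W / k / L ^ (A + 2)) ^ 2) := by
          apply sum_le_sum
          intro b hb
          rw [mem_filter, mem_range] at hb
          exact Fs_split R z w W k b hw.1 hb.1 hb.2 _ (g2 k hk b hb.1 hb.2 (w - 1))
      _ ≤ ∑ b ∈ range k,
          (2 * (∑ m ∈ (Ioc ((w - 1 : ℕ) : ℤ) ((w - 1 : ℕ) + W)).filter
      (fun m => m % (k : ℤ) = (b : ℤ)), gI z m) ^ 2 + 2 * (W / k / L ^ (A + 2)) ^ 2) := by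
          apply sum_le_sum_of_subset_of_nonneg (filter_subset _ _)
          intro b _ _
          positivity
      _ = 2 * NN (gI z) ((w - 1 : ℕ) : ℤ) W k + k * (2 * (W / k / L ^ (A + 2)) ^ 2) := by
          rw [sum_add_distrib, ← mul_sum, sum_const, card_range, nsmul_eq_mul]
          rfl
      _ = 2 * NN (gI z) ((w - 1 : ℕ) : ℤ) W k + 2 * ((W : ℝ) ^ 2 / L ^ (2 * A + 4)) * ((k : ℝ))⁻¹ := by
          congr 1
          rw [show 2 * A + 4 = (A + 2) * 2 by ring, pow_mul]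
          field_simp
  refine (sum_le_sum key).trans ?_
  rw [sum_add_distrib, ← mul_sum, sum_const, nsmul_eq_mul]
  -- shift of the starting points
  have k1 : ∑ w ∈ Ico (R + 1) X, ∑ k ∈ Icc 1 Q, NN (gI z) ((w - 1 : ℕ) : ℤ) W k ≤
      ∑ u ∈ range X, ∑ k ∈ Icc 1 Q, NN (gI z) (u : ℤ) W k := by
    have hinj : Set.InjOn (fun w : ℕ => w - 1) ((Ico (R + 1) X : Finset ℕ) : Set ℕ) := by
      intro x hx y hy h
      rw [coe_Ico, Set.mem_Ico] at hx hy
      simp only at h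
      omega
    rw [← sum_image (f := fun u : ℕ => ∑ k ∈ Icc 1 Q, NN (gI z) (u : ℤ) W k) hinj]
    apply sum_le_sum_of_subset_of_nonneg
    · intro u hu
      rw [mem_image] at hu
      obtain ⟨w, hw, rfl⟩ := hu
      rw [mem_Ico] at hw
      rw [mem_range]
      omega
    · intro u _ _
      exact sum_nonneg fun _ _ => NN_nonneg' _ _ _ _
  have k2 : ((Ico (R + 1) X).card : ℝ) ≤ X := by
    have : (Ico (R + 1) X).card ≤ X := by rw [Nat.card_Ico]; omega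
    exact_mod_cast this
  have k3 : ∑ k ∈ Icc 1 Q, ((k : ℝ))⁻¹ ≤ L := by
    rcases Nat.eq_zero_or_pos Q with h0 | h0
    · rw [h0]
      simp
      linarith
    · have h5 := harmonic_le_one_add_log Q
      rw [harmonic_eq_sum_Icc] at h5
      push_cast at h5
      refine h5.trans ?_
      have hQ0 : (0 : ℝ) < Q := by exact_mod_cast h0
      have h6 := Real.log_le_log hQ0 hQ
      rw [Real.log_rpow hX0] at h6
      linarith
  have k4 : 0 ≤ ∑ k ∈ Icc 1 Q, ((k : ℝ))⁻¹ := sum_nonneg fun _ _ => by positivity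
  have k5 : ((Ico (R + 1) X).card : ℝ) * (2 * ((W : ℝ) ^ 2 / L ^ (2 * A + 4)) * ∑ k ∈ Icc 1 Q, ((k : ℝ))⁻¹) ≤
      X * (W : ℝ) ^ 2 / L ^ A * (1 / 2) := by
    calc _ ≤ (X : ℝ) * (2 * ((W : ℝ) ^ 2 / L ^ (2 * A + 4)) * L) := by gcongr
      _ = X * (W : ℝ) ^ 2 / L ^ A * (2 / L ^ (A + 3)) := by
          rw [show 2 * A + 4 = A + (A + 3) + 1 by ring, pow_succ L (A + (A + 3)), pow_add L A (A + 3)]
          field_simp
      _ ≤ X * (W : ℝ) ^ 2 / L ^ A * (1 / 2) := by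
          apply mul_le_mul_of_nonneg_left _ (by positivity)
          rw [div_le_div_iff₀ (by positivity) (by norm_num)]
          have : L ≤ L ^ (A + 3) := by
            calc L = L ^ 1 := (pow_one L).symm
              _ ≤ _ := pow_le_pow_right₀ (by linarith) (by omega)
          linarith
  have k6 : 2 * (X * (W : ℝ) ^ 2 / L ^ (A + 1)) ≤ X * (W : ℝ) ^ 2 / L ^ A * (1 / 2) := by
    have e1 : 2 * (X * (W : ℝ) ^ 2 / L ^ (A + 1)) = X * (W : ℝ) ^ 2 / L ^ A * (2 / L) := by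
      rw [pow_succ L A]
      field_simp
    rw [e1]
    apply mul_le_mul_of_nonneg_left _ (by positivity)
    rw [div_le_div_iff₀ hL0 (by norm_num)]
    linarith
  have k7 := k1.trans g1
  linarith

end Pool.Agent.H43.X6.BC
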