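import Pool.Agent.H43.X6.BC.F9

set_option autoImplicit false
set_option linter.unusedSectionVars false

/-! The theorem for a class: assembly. -/

namespace Pool.Agent.H43.X6.BC

open Pool.Agent.H43.BC

open Finset Filter
open Pool.Agent.R498.MT (lz MerS gp)

/-- error terms against the density -/
theorem kk (C1 θ S W ℓ e : ℝ) (hW1 : 1 ≤ W) (hW : W ≤ ℓ ^ 2) (he : 0 ≤ e)
    (h : e * C1 ^ 2 * ℓ ^ 4 ≤ θ * S) : C1 ^ 2 * e ≤ θ * (S / W ^ 2) := by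
  have hW2 : 0 < W ^ 2 := by positivity
  rw [mul_div_assoc', le_div_iff₀ hW2]
  refine le_trans ?_ h
  have h1 : W ^ 2 ≤ ℓ ^ 4 := by
    calc W ^ 2 ≤ (ℓ ^ 2) ^ 2 := pow_le_pow_left₀ (by linarith) hW 2
      _ = ℓ ^ 4 := by ring
  calc C1 ^ 2 * e * W ^ 2 ≤ C1 ^ 2 * e * ℓ ^ 4 := mul_le_mul_of_nonneg_left h1 (by positivity)
    _ = _ := by ring

/-- the Mertens sum over the sieving primes -/
theorem mer_sum (z0 R Y : ℕ) (hz : 3 ≤ z0) (hzR : z0 ≤ R) (hRY : R ≤ Y)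
    (hM : MerS (fun t : Pz z0 R => Real.log ((t : ℕ) : ℝ)) (fun t : Pz z0 R => 1 / (((t : ℕ) : ℝ) - 1))
      (Real.log z0) (Real.log R) (1 / 20)) :
    ∑ t : Pz z0 R, 1 / (((t : ℕ) : ℝ) - 1) ≤ Real.log (Real.log Y) + 1 := by
  classical
  have hz3 : (3 : ℝ) ≤ z0 := by exact_mod_cast hz
  have hzR' : (z0 : ℝ) ≤ R := by exact_mod_cast hzR
  have hRY' : (R : ℝ) ≤ Y := by exact_mod_cast hRY
  have hlz : 1 ≤ Real.log z0 := by
    rw [Real.le_log_iff_exp_le (by linarith)]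
    have := Real.exp_one_lt_d9
    linarith
  have hlR : Real.log z0 ≤ Real.log R := Real.log_le_log (by linarith) hzR'
  have hlY : Real.log R ≤ Real.log Y := Real.log_le_log (by linarith) hRY'
  have h1 := hM (Real.log z0) (Real.log R) le_rfl hlR le_rfl
  rw [filter_true_of_mem (by
    intro t _
    have ht := t.2
    unfold Pz at ht
    rw [mem_filter, mem_Ico] at ht
    have h3 : (z0 : ℝ) ≤ ((t : ℕ) : ℝ) := by exact_mod_cast ht.1.1
    have h4 : ((t : ℕ) : ℝ) < R := by exact_mod_cast ht.1.2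
    exact ⟨Real.log_le_log (by linarith) h3, Real.log_lt_log (by linarith) h4⟩), abs_le] at h1
  have h3 : Real.log (Real.log R / Real.log z0) ≤ Real.log (Real.log Y) := by
    apply Real.log_le_log (div_pos (by linarith) (by linarith))
    calc Real.log R / Real.log z0 ≤ Real.log R := div_le_self (by linarith) hlz
      _ ≤ _ := hlY
  linarith [h1.2]

theorem class_thm {J : Type} [Fintype J] [DecidableEq J] (K m : ℕ) (hJ : Fintype.card J = 2 ^ K)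
    (c0 : ℝ) (hc0 : 0 < c0) (zc : ℕ)
    (hzc : ∀ z0, zc ≤ z0 → c0 * Real.log z0 ≤ (Wz z0 : ℝ) / Nat.totient (Wz z0))
    (hK : 31680000 * (m : ℝ) < c0 * (K + 1))
    (h : J → ℕ) (hinj : ∀ j j', j ≠ j' → h j ≠ h j')
    (hcong : ∀ p : ℕ, p.Prime → p ≤ 2 * Fintype.card J → ∀ j j', (p : ℤ) ∣ (h j : ℤ) - h j')
    (sm : ℕ) (hsm : ∀ j, h j ≤ sm)
    (b : ℕ) (hb : b = 12 * 2 ^ (Fintype.card (Fin 2 × Bool × J)) + 4) (θ : ℝ) (hθ0 : 0 < θ)
    (hθ : θ ≤ 1 / 2) (ε : ℝ) (hε : 0 < ε) :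
    ∃ X0 : ℕ, ∀ X : ℕ, X0 ≤ X → ∀ N : ℕ, (X : ℝ) ^ (1 / 6 + ε) ≤ N → N ^ 2 ≤ X →
      ∀ m1 : ℕ, RX X + 1 ≤ m1 → m1 ≤ N → ∃ m2 : ℕ, N < m2 ∧ (m2 : ℝ) - m1 ≤ 2 * N ∧
      ((WX X * GX b X : ℕ) : ℝ) ≤ Real.log X ^ (b + 3) ∧ 1 ≤ WX X ∧ ∀ s0 r0 : ℕ,
      ∃ B ⊆ CS m1 m2 1 (X + 1) (WX X) s0 r0,
      (B.card : ℝ) ≤ 44 * (Fintype.card J + 1) * θ * (((m2 : ℝ) - m1) * X / (WX X : ℝ) ^ 2) ∧
      ∀ n ∈ CS m1 m2 1 (X + 1) (WX X) s0 r0, n ∉ B → ∃ i : ℕ, 0 < i ∧ i ≤ WX X * GX b X ∧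
        m ≤ ((univ : Finset J).filter (fun l => ((n.1 + (i + h l)) ^ 2 + n.2).Prime)).card := by
  classical
  obtain ⟨zm, hzm⟩ := mers
  obtain ⟨A4, hA4⟩ : ∃ A4, A4 = 12 * 2 ^ (Fintype.card (Fin 2 × Bool × J)) := ⟨_, rfl⟩
  obtain ⟨C1, hC1⟩ : ∃ C1 : ℝ, C1 = 2 * (600 * 2 ^ K * (K + 1)) ^ (2 ^ K + 1) := ⟨_, rfl⟩
  obtain ⟨H, hH⟩ : ∃ H, H = b + 6 := ⟨_, rfl⟩
  obtain ⟨Cn, hCn⟩ : ∃ Cn, Cn = 2 ^ (Fintype.card (Fin 2 × Bool × J)) * (2 + Fintype.card (Fin 2 × J)) :=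
    ⟨_, rfl⟩
  have hCn1 : 1 ≤ Cn := by
    rw [hCn]
    exact Nat.mul_pos (by positivity) (by omega)
  obtain ⟨B2, hB2⟩ : ∃ B2 : ℕ, B2 = 5 := ⟨_, rfl⟩
  obtain ⟨e, he⟩ : ∃ e, e = 2 * Cn ^ 2 := ⟨_, rfl⟩
  obtain ⟨a, ha⟩ : ∃ a, a = b + e + B2 + 6 := ⟨_, rfl⟩
  obtain ⟨U, hU⟩ : ∃ U, U = b + B2 + 4 := ⟨_, rfl⟩
  obtain ⟨ccN, hccN⟩ : ∃ ccN, ccN = 2 * (3 * 2 ^ (4 * Fintype.card J)) + 2 * Cn := ⟨_, rfl⟩
  obtain ⟨Xb, hXb⟩ := bv U ccN
  obtain ⟨Xa, hXa⟩ := avb_bound Cn b B2 a e U hCn1 he ha hU ε hε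
  have hC11 : 1 ≤ C1 := by
    rw [hC1]
    have h2K : (1 : ℝ) ≤ 2 ^ K := one_le_pow₀ (by norm_num)
    have hK0 : (0 : ℝ) ≤ K := Nat.cast_nonneg K
    have h1 : (1 : ℝ) ≤ 600 * 2 ^ K * (K + 1) := by nlinarith
    have h2 : (1 : ℝ) ≤ (600 * 2 ^ K * (K + 1)) ^ (2 ^ K + 1) := one_le_pow₀ h1
    linarith
  have hC12 : 1 ≤ C1 ^ 2 := one_le_pow₀ hC11
  obtain ⟨Ξ, hΞ⟩ : ∃ Ξ, Ξ = θ / C1 ^ 2 := ⟨_, rfl⟩
  have hΞ0 : 0 < Ξ := by rw [hΞ]; positivity
  obtain ⟨cb, hcb⟩ : ∃ cb : ℝ, cb = Xb + 1000 * C1 ^ 2 / θ + 4 * C1 ^ 2 * (Real.exp A4 * 2 ^ A4) / θ + 1 := ⟨_, rfl⟩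
  have q0 : (0 : ℝ) ≤ Xb := Nat.cast_nonneg _
  have q1 : 0 ≤ 1000 * C1 ^ 2 / θ := by positivity
  have q2 : 0 ≤ 4 * C1 ^ 2 * (Real.exp A4 * 2 ^ A4) / θ := by positivity
  have cb1 : (Xb : ℝ) ≤ cb := by rw [hcb]; linarith
  have cb2 : 1000 * C1 ^ 2 / θ ≤ cb := by rw [hcb]; linarith
  have cb3 : 4 * C1 ^ 2 * (Real.exp A4 * 2 ^ A4) / θ ≤ cb := by rw [hcb]; linarith
  have cb4 : 1 ≤ cb := by rw [hcb]; linarith
  obtain ⟨e', he'⟩ : ∃ e', e' = a + B2 + 4 + b + 20 := ⟨_, rfl⟩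
  obtain ⟨XF, hXF⟩ := fct_evt b sm a e' ε cb hε
  obtain ⟨p0, hp0, hp0p⟩ := Nat.exists_infinite_primes (sm + 1)
  obtain ⟨ze1, hze1⟩ := evt_z (Fintype.card (Fin 1 × Bool × J)) (Fintype.card (Fin 1 × J)) (2 * H)
    (Real.log (1 + Ξ)) (by positivity) (Real.log_pos (by linarith))
  obtain ⟨ze2, hze2⟩ := evt_z (Fintype.card (Fin 2 × Bool × J)) (Fintype.card (Fin 2 × J)) (2 * H)
    (Real.log (1 + Ξ)) (by positivity) (Real.log_pos (by linarith))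
  obtain ⟨zl, hzl⟩ := eventually_atTop.1 (evt_log_ge (2 * (b + 3) / θ))
  obtain ⟨X1, hX1⟩ := zX_evt (zm + zc + 3 + ccN + (p0 + 1) + ze1 + ze2 + zl + 80000 * 2 ^ K * (K + 1))
  refine ⟨max (max XF X1) (max Xa 3), fun X hX N hN1 hN2 m1 hm1R hm1N => ?_⟩
  have F := hXF X (((le_max_left _ _).trans (le_max_left _ _)).trans hX) N hN1 hN2
  have hz := hX1 X (((le_max_right _ _).trans (le_max_left _ _)).trans hX)
  have hXX : Xa ≤ X := ((le_max_left _ _).trans (le_max_right _ _)).trans hX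
  have hX3 : 3 ≤ X := ((le_max_right _ _).trans (le_max_right _ _)).trans hX
  have hX3r : (3 : ℝ) ≤ X := by exact_mod_cast hX3
  have hAV := hXa X hXX sm e' N cb (by omega) cb4 (by omega) F
  obtain ⟨z0, hz0⟩ : ∃ z0, z0 = zX X := ⟨_, rfl⟩
  rw [← hz0] at hz
  have hWz0 : WX X = Wz z0 := by unfold WX; rw [hz0]
  have z_m : zm ≤ z0 := by omega
  have z_c : zc ≤ z0 := by omega
  have z_3 : 3 ≤ z0 := by omega
  have z_cc : ccN ≤ z0 := by omega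
  have z_p : p0 < z0 := by omega
  have z_e1 : ze1 ≤ z0 := by omega
  have z_e2 : ze2 ≤ z0 := by omega
  have z_l : zl ≤ z0 := by omega
  have z_K : 80000 * 2 ^ K * (K + 1) ≤ z0 := by omega
  obtain ⟨hmer, hmsq⟩ := hzm z0 z_m (RX X)
  have hz3 : (3 : ℝ) ≤ z0 := by exact_mod_cast z_3
  obtain ⟨ℓ, hℓ⟩ : ∃ ℓ, ℓ = Real.log X := ⟨_, rfl⟩
  obtain ⟨T, hT⟩ : ∃ T, T = TX X := ⟨_, rfl⟩
  obtain ⟨Y, hY⟩ : ∃ Y, Y = 20 * X := ⟨_, rfl⟩
  obtain ⟨R, hR⟩ : ∃ R, R = RX X := ⟨_, rfl⟩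
  obtain ⟨KK, hKK⟩ : ∃ KK, KK = GX a X := ⟨_, rfl⟩
  obtain ⟨L, hL⟩ : ∃ L, L = LX a X N := ⟨_, rfl⟩
  obtain ⟨m2, hm2⟩ : ∃ m2, m2 = m1 + KK * L := ⟨_, rfl⟩
  obtain ⟨S, hS⟩ : ∃ S : ℝ, S = (m2 : ℝ) - m1 := ⟨_, rfl⟩
  have l4 : 4 ≤ ℓ := by rw [hℓ]; exact F.l4
  have lcb : cb ≤ ℓ := by rw [hℓ]; exact F.lc
  have hW_le : (WX X : ℝ) ≤ ℓ ^ 2 := by rw [hℓ]; exact F.W_le
  have hG_ge : ℓ ^ b ≤ GX b X := by rw [hℓ]; exact F.G_ge
  have hWG_le : ((WX X * GX b X : ℕ) : ℝ) ≤ ℓ ^ (b + 3) := by rw [hℓ]; exact F.WG_le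
  have hH_le : (HX b sm X : ℝ) ≤ ℓ ^ H := by rw [hℓ, hH]; exact F.H_le
  have hT1 : 1 ≤ T := by rw [hT]; exact F.T1
  have hHT : cb * ℓ ^ e' ≤ T := by rw [hℓ, hT]; exact F.HT
  have hTX : T ^ 1300 = X := by rw [hT]; exact F.T_X
  have hN_ge : T ^ 216 ≤ N := by rw [hT]; exact F.N_ge
  have hN_le : (N : ℝ) ≤ T ^ 650 := by rw [hT]; exact F.N_le
  have hKL1 : N ≤ KK * L := by rw [hKK, hL]; exact F.KL_ge
  have hKL2 : KK * L ≤ 2 * N := by rw [hKK, hL]; exact F.KL_le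
  have hSeq : S = KK * L := by rw [hS, hm2]; push_cast; ring
  have hSN : (N : ℝ) ≤ S := by rw [hSeq]; exact_mod_cast hKL1
  have hSN2 : S ≤ 2 * N := by rw [hSeq]; exact_mod_cast hKL2
  have hS_ge : T ^ 216 ≤ S := hN_ge.trans hSN
  have hR_ge : T ^ 12 ≤ R := by rw [hT, hR]; exact F.R_ge
  have hR_le : (R : ℝ) ≤ T ^ 13 := by rw [hT, hR]; exact F.R_le
  have hRY110 : Real.log Y ≤ 110 * Real.log R := by rw [hR, hY]; exact F.RY
  have hlY2 : Real.log Y ≤ 2 * ℓ := by rw [hY, hℓ]; exact F.lY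
  have hYX : (Y : ℝ) = 20 * X := by rw [hY]; push_cast; ring
  have hlY1 : ℓ ≤ Real.log Y := by
    rw [hℓ, hYX]
    exact Real.log_le_log (by linarith) (by linarith)
  rw [← hR] at hmer hmsq
  have hp1 : ∀ n : ℕ, 1 ≤ ℓ ^ n := fun n => one_le_pow₀ (by linarith)
  have hpm : ∀ m n : ℕ, m ≤ n → ℓ ^ m ≤ ℓ ^ n := fun m n h => pow_le_pow_right₀ (by linarith) h
  have hTm : ∀ m n : ℕ, m ≤ n → T ^ m ≤ T ^ n := fun m n h => pow_le_pow_right₀ hT1 h
  have hℓT : ∀ n : ℕ, n ≤ e' → ∀ c : ℝ, c ≤ cb → c * ℓ ^ n ≤ T := by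
    intro n hn c hc
    have h1 := hp1 n
    have h2 := hpm n e' hn
    calc c * ℓ ^ n ≤ cb * ℓ ^ n := mul_le_mul_of_nonneg_right hc (by linarith)
      _ ≤ cb * ℓ ^ e' := mul_le_mul_of_nonneg_left h2 (by linarith)
      _ ≤ T := hHT
  have hS0 : 0 < S := lt_of_lt_of_le (by positivity) hS_ge
  have hTY : T ^ 1300 ≤ Y := by rw [hTX, hYX]; linarith
  have hY0 : (0 : ℝ) < Y := by linarith
  have hW1 : 1 ≤ WX X := F.W1
  have hW1r : (1 : ℝ) ≤ (WX X : ℝ) := by exact_mod_cast hW1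
  have hz0l : (z0 : ℝ) ≤ Real.log ℓ := by
    rw [hz0, hℓ]
    unfold zX
    exact Nat.floor_le (Real.log_nonneg (by linarith [F.l4]))
  have hz0l2 : Real.log ℓ ≤ 2 * z0 := by
    have h1 : Real.log ℓ < z0 + 1 := by
      rw [hz0, hℓ]
      unfold zX
      exact Nat.lt_floor_add_one _
    linarith
  have hlz1 : 1 ≤ Real.log z0 := by
    rw [Real.le_log_iff_exp_le (by linarith)]
    have := Real.exp_one_lt_d9
    linarith
  have hz0ℓ : (z0 : ℝ) ≤ ℓ := by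
    have := Real.log_le_sub_one_of_pos (show 0 < ℓ by linarith)
    linarith
  have hTR : T ≤ R := by
    refine le_trans ?_ hR_ge
    calc T = T ^ 1 := (pow_one T).symm
      _ ≤ T ^ 12 := hTm _ _ (by norm_num)
  have hℓ1T : ℓ ≤ T := by
    have := hℓT 1 (by omega) 1 cb4
    linarith
  have hz0R : z0 ≤ R := by
    have : (z0 : ℝ) ≤ R := by linarith
    exact_mod_cast this
  have hR1 : 1 ≤ R := by omega
  have hRsq : R ^ 2 ≤ Y := by
    have : (R : ℝ) ^ 2 ≤ Y := by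
      calc (R : ℝ) ^ 2 ≤ (T ^ 13) ^ 2 := pow_le_pow_left₀ (Nat.cast_nonneg _) hR_le 2
        _ = T ^ 26 := by ring
        _ ≤ T ^ 1300 := hTm _ _ (by norm_num)
        _ ≤ Y := hTY
    exact_mod_cast this
  have hRY : R ≤ Y := le_trans (Nat.le_self_pow (by norm_num) R) hRsq
  have hQ4 : ((R ^ 4 : ℕ) : ℝ) ≤ T ^ 52 := by
    push_cast
    calc (R : ℝ) ^ 4 ≤ (T ^ 13) ^ 4 := pow_le_pow_left₀ (Nat.cast_nonneg _) hR_le 4
      _ = T ^ 52 := by ring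
  have hQ8 : (R ^ 4) ^ 8 ≤ Y := by
    have : (((R ^ 4 : ℕ)) : ℝ) ^ 8 ≤ Y := by
      calc (((R ^ 4 : ℕ)) : ℝ) ^ 8 ≤ (T ^ 52) ^ 8 := pow_le_pow_left₀ (Nat.cast_nonneg _) hQ4 8
        _ = T ^ 416 := by ring
        _ ≤ T ^ 1300 := hTm _ _ (by norm_num)
        _ ≤ Y := hTY
    exact_mod_cast this
  obtain ⟨M, hM0, hMR, hMB⟩ := hXb Y (by
    have h1 : (Xb : ℝ) ≤ Y := by
      have h2 := hℓT 0 (by omega) cb le_rfl
      rw [pow_zero, mul_one] at h2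
      have h3 : T ≤ T ^ 1300 := by
        calc T = T ^ 1 := (pow_one T).symm
          _ ≤ T ^ 1300 := hTm _ _ (by norm_num)
      linarith
    exact_mod_cast h1)
  have hRs : R ≤ Y.sqrt := Nat.le_sqrt'.2 hRsq
  have hsum := mer_sum z0 R Y z_3 hz0R hRY hmer
  have hPp : ∀ p ∈ Pz z0 R, p.Prime := fun p hp => (mem_filter.1 hp).2
  have hPz : ∀ p ∈ Pz z0 R, z0 ≤ p ∧ p < R := fun p hp => mem_Ico.1 (mem_filter.1 hp).1
  have hP3 : ∀ p ∈ Pz z0 R, 3 ≤ p := fun p hp => z_3.trans (hPz p hp).1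
  have hPc : ∀ p ∈ Pz z0 R, (ccN : ℝ) ≤ p := fun p hp => by
    exact_mod_cast z_cc.trans (hPz p hp).1
  have hPc1 : ∀ p ∈ Pz z0 R, (2 * (3 * 2 ^ (4 * Fintype.card J)) : ℝ) ≤ p := fun p hp => by
    have h1 := hPc p hp
    rw [hccN] at h1
    push_cast at h1
    have h2 : (0 : ℝ) ≤ Cn := Nat.cast_nonneg _
    linarith
  have hPc2 : ∀ p ∈ Pz z0 R, (Cn : ℝ) ≤ p := fun p hp => by
    have h1 := hPc p hp
    rw [hccN] at h1
    push_cast at h1
    have h2 : (0 : ℝ) ≤ Cn := Nat.cast_nonneg _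
    have h3 : (0 : ℝ) ≤ 2 * (3 * 2 ^ (4 * Fintype.card J)) := by positivity
    linarith
  have hPW : ∀ p ∈ Pz z0 R, ¬ p ∣ WX X := fun p hp hd => by
    rw [hWz0, dvd_Wz z0 p (hPp p hp)] at hd
    have := (hPz p hp).1
    omega
  obtain ⟨mb, hmb⟩ : ∃ mb, mb = 2 * (WX X * GX b X) * WX X := ⟨_, rfl⟩
  have hmbT : (mb : ℝ) ≤ T := by
    have h1 : (mb : ℝ) = 2 * ((WX X * GX b X : ℕ) : ℝ) * WX X := by rw [hmb]; push_cast; ring
    rw [h1]
    calc 2 * ((WX X * GX b X : ℕ) : ℝ) * WX X ≤ 2 * ℓ ^ (b + 3) * ℓ ^ 2 := by gcongr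
      _ = 2 * ℓ ^ (b + 5) := by ring
      _ ≤ ℓ * ℓ ^ (b + 5) := mul_le_mul_of_nonneg_right (by linarith) (by linarith [hp1 (b + 5)])
      _ = 1 * ℓ ^ (b + 6) := by ring
      _ ≤ T := hℓT (b + 6) (by omega) 1 cb4
  have hlYp : 0 < Real.log Y := by linarith
  obtain ⟨EB, hEB⟩ : ∃ EB, EB = (Y : ℝ) / (Real.log Y) ^ U := ⟨_, rfl⟩
  have hEB0 : 0 ≤ EB := by rw [hEB]; positivity
  have hEBle : EB ≤ 20 * X / ℓ ^ U := by
    rw [hEB, hYX]
    rw [hYX] at hlY1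
    apply div_le_div_of_nonneg_left (by positivity) (by positivity)
    exact pow_le_pow_left₀ (by linarith) hlY1 U
  have hMB' : ∀ m0 : ℕ, 1 ≤ m0 → m0 ≤ mb → ∀ c : ℝ, 0 ≤ c → c ≤ (ccN : ℝ) →
      BS (Pz z0 R) M (R ^ 4) c m0 ≤ EB := by
    intro m0 hm0 hm0' c hc hcc
    rw [hEB]
    apply hMB (Pz z0 R) hPp hP3 hPc hsum (R ^ 4) hQ8 m0 hm0 _ c hc hcc
    rw [Nat.le_sqrt', Nat.le_sqrt']
    have h1 : (m0 : ℝ) ≤ T := le_trans (by exact_mod_cast hm0') hmbT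
    have h2 : (((m0 * R ^ 4 : ℕ) : ℝ) ^ 2) ^ 2 ≤ Y := by
      have h3 : ((m0 * R ^ 4 : ℕ) : ℝ) ≤ T ^ 53 := by
        push_cast at hQ4 ⊢
        calc (m0 : ℝ) * (R : ℝ) ^ 4 ≤ T * T ^ 52 := by gcongr
          _ = _ := by ring
      calc (((m0 * R ^ 4 : ℕ) : ℝ) ^ 2) ^ 2 ≤ ((T ^ 53) ^ 2) ^ 2 := by gcongr
        _ = T ^ 212 := by ring
        _ ≤ T ^ 1300 := hTm _ _ (by norm_num)
        _ ≤ Y := hTY
    exact_mod_cast h2
  have hG1 : 1 ≤ GX b X := by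
    have : (1 : ℝ) ≤ GX b X := (hp1 b).trans hG_ge
    exact_mod_cast this
  have hGW : WX X ≤ WX X * GX b X := Nat.le_mul_of_pos_right _ hG1
  have hWmb : WX X ≤ mb := by
    rw [hmb]
    calc WX X ≤ WX X * GX b X := hGW
      _ = 1 * (WX X * GX b X) * 1 := by ring
      _ ≤ 2 * (WX X * GX b X) * WX X :=
        Nat.mul_le_mul (Nat.mul_le_mul_right _ (by norm_num)) hW1
  -- the weights
  obtain ⟨u, hu⟩ : ∃ u, u = Real.log R / (50 * 2 ^ K * (K + 1)) := ⟨_, rfl⟩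
  have hKpos : (0 : ℝ) < 50 * 2 ^ K * ((K : ℝ) + 1) := by positivity
  have huw : Real.log R = 50 * 2 ^ K * (K + 1) * u := by
    rw [hu]; field_simp
  have hlR : 12 * (ℓ / 1300) ≤ Real.log R := by
    have h1 := Real.log_le_log (by positivity) hR_ge
    rw [Real.log_pow] at h1
    have h2 : Real.log T = ℓ / 1300 := by
      have h3 : Real.log (T ^ 1300) = ℓ := by rw [hTX, hℓ]
      rw [Real.log_pow] at h3
      push_cast at h3
      linarith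
    rw [h2] at h1
    push_cast at h1
    exact h1
  have hbig : 4 * Real.log z0 ≤ u := by
    have h1 : Real.log z0 ≤ z0 := by
      have := Real.log_le_sub_one_of_pos (show (0 : ℝ) < z0 by linarith)
      linarith
    have h2 : (z0 : ℝ) ^ 2 ≤ 2 * ℓ := by
      have h3 := Real.quadratic_le_exp_of_nonneg (show (0 : ℝ) ≤ z0 by linarith)
      have h4 : Real.exp z0 ≤ ℓ := by
        have := Real.exp_le_exp.2 hz0l
        rwa [Real.exp_log (by linarith)] at this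
      linarith
    have h3 : (80000 * 2 ^ K * ((K : ℝ) + 1)) ≤ z0 := by exact_mod_cast z_K
    rw [hu, le_div_iff₀ hKpos]
    calc 4 * Real.log z0 * (50 * 2 ^ K * (K + 1)) ≤ 4 * z0 * (50 * 2 ^ K * (K + 1)) := by gcongr
      _ = (80000 * 2 ^ K * ((K : ℝ) + 1)) * z0 / 400 := by ring
      _ ≤ z0 * z0 / 400 := by gcongr
      _ ≤ 12 * (ℓ / 1300) := by
          rw [← sq]
          linarith only [h2, l4]
      _ ≤ _ := hlR
  have hratio := ratio (J := J) K hJ (fun t : Pz z0 R => Real.log ((t : ℕ) : ℝ))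
    (fun t : Pz z0 R => 1 / (((t : ℕ) : ℝ) - 1)) (fun t => by
      have : (3 : ℝ) ≤ (t : ℕ) := by exact_mod_cast hP3 t t.2
      apply div_nonneg zero_le_one; linarith) (Real.log z0) (Real.log R) (1 / 20) u (by linarith)
    (fun t => by
      have : (z0 : ℝ) ≤ (t : ℕ) := by exact_mod_cast (hPz t t.2).1
      exact Real.log_le_log (by linarith) this)
    (fun t => by
      have h1 : (3 : ℝ) ≤ (t : ℕ) := by exact_mod_cast hP3 t t.2
      have : ((t : ℕ) : ℝ) < R := by exact_mod_cast (hPz t t.2).2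
      exact Real.log_lt_log (by linarith) this) le_rfl hmer hmsq huw hbig
  obtain ⟨hr1, hr2, hr3⟩ := hratio
  -- the conclusion outside the classes
  refine ⟨m2, by omega, by rw [← hS]; exact hSN2, ?_, hW1, ?_⟩
  · rw [← hℓ]; exact hWG_le
  intro s0 r0
  obtain ⟨i0, hi1, hi2, hi3⟩ := exists_i0 h z0 hcong s0 r0 0
  rw [← hWz0] at hi2 hi3
  have hW2 : 2 ∣ WX X := by rw [hWz0, dvd_Wz z0 2 Nat.prime_two]; omega
  have hlogℓ0 : 0 ≤ Real.log ℓ := Real.log_nonneg (by linarith)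
  have hpos : ∀ g < GX b X, ∀ j, i0 + WX X * g + h j ≤ HX b sm X := by
    intro g hg j
    have h1 : WX X * g ≤ WX X * GX b X := Nat.mul_le_mul_left _ hg.le
    have h2 := hsm j
    unfold HX
    omega
  have hp0W : p0 ∣ WX X := by rw [hWz0, dvd_Wz z0 p0 hp0p]; exact z_p
  have hsmW : sm < WX X := by
    have := Nat.le_of_dvd hW1 hp0W
    omega
  have hH1 : 1 ≤ HX b sm X := by unfold HX; omega
  have hLH : Real.log (HX b sm X) ≤ (2 * H : ℝ) * z0 := by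
    have h1 : Real.log (HX b sm X) ≤ Real.log (ℓ ^ H) :=
      Real.log_le_log (by exact_mod_cast hH1) hH_le
    rw [Real.log_pow] at h1
    calc _ ≤ H * Real.log ℓ := h1
      _ ≤ H * (2 * z0) := mul_le_mul_of_nonneg_left hz0l2 (by positivity)
      _ = _ := by ring
  have hWQT : (WX X : ℝ) * ((R ^ 4 : ℕ) : ℝ) ≤ T ^ 53 := by
    have h1 : (WX X : ℝ) ≤ T := hW_le.trans (by
      have := hℓT 2 (by omega) 1 cb4
      linarith)
    calc (WX X : ℝ) * ((R ^ 4 : ℕ) : ℝ) ≤ T * T ^ 52 := by gcongr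
      _ = T ^ 53 := by ring
  have hc84' : 1000 * C1 ^ 2 ≤ θ * ℓ := by
    have := cb2.trans lcb
    rw [div_le_iff₀ hθ0] at this
    linarith
  have hpU : ∀ n : ℕ, n + 1 ≤ U → ∀ c : ℝ, 0 ≤ c → c ≤ 1000 * C1 ^ 2 → c * ℓ ^ n / ℓ ^ U ≤ θ := by
    intro n hn c hc hcc
    rw [div_le_iff₀ (by positivity)]
    calc c * ℓ ^ n ≤ (θ * ℓ) * ℓ ^ n := mul_le_mul_of_nonneg_right (hcc.trans hc84') (by linarith [hp1 n])
      _ = θ * ℓ ^ (n + 1) := by ring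
      _ ≤ θ * ℓ ^ U := mul_le_mul_of_nonneg_left (hpm _ _ hn) hθ0.le
  have hcT : ∀ n : ℕ, n ≤ 200 → 20 * C1 ^ 2 * ℓ ^ 4 * T ^ n ≤ θ * S := by
    intro n hn
    have h1 := hℓT 5 (by omega) 1 cb4
    have h2 : 20 * C1 ^ 2 * ℓ ^ 4 ≤ θ * T := by
      have h3 : 20 * C1 ^ 2 ≤ θ * ℓ :=
        le_trans (mul_le_mul_of_nonneg_right (by norm_num) (sq_nonneg _)) hc84'
      calc 20 * C1 ^ 2 * ℓ ^ 4 ≤ (θ * ℓ) * ℓ ^ 4 := mul_le_mul_of_nonneg_right h3 (by positivity)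
        _ = θ * (1 * ℓ ^ 5) := by ring
        _ ≤ θ * T := mul_le_mul_of_nonneg_left h1 hθ0.le
    calc 20 * C1 ^ 2 * ℓ ^ 4 * T ^ n ≤ (θ * T) * T ^ n := mul_le_mul_of_nonneg_right h2 (by positivity)
      _ = θ * T ^ (n + 1) := by ring
      _ ≤ θ * T ^ 216 := mul_le_mul_of_nonneg_left (hTm _ _ (by omega)) hθ0.le
      _ ≤ θ * S := mul_le_mul_of_nonneg_left hS_ge hθ0.le
  have hQ2 : ((R ^ 4 : ℕ) : ℝ) ^ 2 ≤ T ^ 104 := by
    calc ((R ^ 4 : ℕ) : ℝ) ^ 2 ≤ (T ^ 52) ^ 2 := pow_le_pow_left₀ (Nat.cast_nonneg _) hQ4 2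
      _ = _ := by ring
  have hQ3 : ((R ^ 4 : ℕ) : ℝ) ^ 3 ≤ T ^ 156 := by
    calc ((R ^ 4 : ℕ) : ℝ) ^ 3 ≤ (T ^ 52) ^ 3 := pow_le_pow_left₀ (Nat.cast_nonneg _) hQ4 3
      _ = _ := by ring
  have hTT : ∀ n : ℕ, n ≤ 1300 → T ^ n ≤ X := fun n hn => (hTm _ _ hn).trans hTX.le
  have hS1 : 1 ≤ S := le_trans (one_le_pow₀ hT1) hS_ge
  have hSX : S ≤ 2 * X := by
    have := hTT 650 (by norm_num)
    linarith
  have hXe : (((X + 1 : ℕ) : ℝ) - ((1 : ℕ) : ℝ)) = X := by push_cast; ring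
  have hnum : S + X + 1 ≤ 4 * X := by linarith
  let D : Sv J := {
    P := Pz z0 R
    W := WX X
    R := R
    Q := R ^ 4
    m1 := m1
    m2 := m2
    A1 := 1
    A2 := X + 1
    L := L
    K := KK
    Dd := mb * R ^ 4
    Y := Y
    s0 := s0
    r0 := r0
    M := M
    y := yy (fun t : Pz z0 R => Real.log ((t : ℕ) : ℝ)) K u (Real.log R)
    EB := EB
    E2b := X * ((m2 : ℝ) - m1) / ℓ ^ B2
    mb := mb
    hP := hPp
    hP3 := hP3
    hPc := hPc1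
    hW0 := hW1
    hW2 := hW2
    hW := hPW
    hRW := fun p hp hd => by
      rw [hWz0, dvd_Wz z0 p hp] at hd
      omega
    hRP := fun p hp => (hPz p hp).2.le
    hR1 := hR1
    hQ := le_rfl
    hL := by rw [hL]; exact Nat.le_add_left 1 _
    hm2 := hm2
    hA1 := le_rfl
    hA := by omega
    hWQ := by
      rw [← hS]
      push_cast at hWQT ⊢
      exact hWQT.trans ((hTm _ _ (by norm_num)).trans hS_ge)
    hRm := by rw [hR]; exact hm1R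
    hDk := le_rfl
    hY2 := by
      have h1 : ((mb * R ^ 4 : ℕ) : ℝ) ≤ T ^ 53 := by
        push_cast at hQ4 ⊢
        calc (mb : ℝ) * (R : ℝ) ^ 4 ≤ T * T ^ 52 := by gcongr
          _ = _ := by ring
      have h2 : ((mb * L : ℕ) : ℝ) ≤ 2 * T ^ 651 := by
        have h3 : (L : ℝ) ≤ 2 * T ^ 650 := by
          have h4 : L ≤ KK * L := Nat.le_mul_of_pos_left L (by
            rcases Nat.eq_zero_or_pos KK with h0 | h0
            · rw [h0, zero_mul] at hKL1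
              omega
            · exact h0)
          have h5 : (L : ℝ) ≤ 2 * N := by exact_mod_cast h4.trans hKL2
          linarith
        push_cast
        calc (mb : ℝ) * L ≤ T * (2 * T ^ 650) := by gcongr
          _ = _ := by ring
      have h3 := hTT 53 (by norm_num)
      have h4 := hTT 651 (by norm_num)
      have h5 : ((mb * R ^ 4 + mb * R ^ 4 + mb * L : ℕ) : ℝ) ≤ Y := by
        have h6 : ((mb * R ^ 4 + mb * R ^ 4 + mb * L : ℕ) : ℝ) =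
            ((mb * R ^ 4 : ℕ) : ℝ) + ((mb * R ^ 4 : ℕ) : ℝ) + ((mb * L : ℕ) : ℝ) := by push_cast; ring
        rw [h6, hYX]
        linarith
      exact_mod_cast h5
    hE2 := fun δ hδ hδm => by
      have h1 := hAV (Pz z0 R) hPp hP3 hPc2 hPW (by rw [← hY]; exact hsum) M hM0 R (R ^ 4)
        (by rw [← hT]; exact hQ4) mb hmb (by
          have := hMB' (WX X) hW1 hWmb (2 * Cn) (by positivity) (by
            rw [hccN]
            push_cast
            have h3 : (0 : ℝ) ≤ 2 * (3 * 2 ^ (4 * Fintype.card J)) := by positivity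
            linarith)
          rw [hEB, hY] at this
          exact this) m1 m2 (by rw [← hKK, ← hL]; exact hm2) δ hδ hδm
      rw [← hL, ← hKK, ← hY, ← hℓ, hCn] at h1
      push_cast at h1
      exact h1
    hM := hMR R hRs
    hM0 := hM0
    hy1 := fun f => by
      have h1 := yy_bd (fun t : Pz z0 R => Real.log ((t : ℕ) : ℝ)) K u (Real.log R) f
      rw [abs_of_nonneg h1.1]
      exact h1.2.2
    hys := fun f hf => yy_supp _ K u (Real.log R) f hf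
    hBS := fun m0 hm0 hm0' c hc hcc => by
      apply hMB' m0 hm0 hm0' c hc
      rw [hccN]
      push_cast
      have h2 : (0 : ℝ) ≤ Cn := Nat.cast_nonneg _
      linarith
    hWm := hWmb
    h := h
    i0 := i0
    G := GX b X
    z0 := z0
    Hm := HX b sm X
    C1 := C1
    θ := θ
    Ξ := Ξ
    hi0 := by omega
    hG0 := hG1
    hHm := hpos
    hHm1 := hH1
    hYH := by
      have h1 : (HX b sm X : ℝ) ≤ N := by
        calc (HX b sm X : ℝ) ≤ ℓ ^ H := hH_le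
          _ = 1 * ℓ ^ H := (one_mul _).symm
          _ ≤ T := hℓT H (by omega) 1 cb4
          _ = T ^ 1 := (pow_one T).symm
          _ ≤ T ^ 216 := hTm _ _ (by norm_num)
          _ ≤ N := hN_ge
      have h2 : HX b sm X ≤ N := by exact_mod_cast h1
      have h3 : m2 ≤ 3 * N := by omega
      calc (m2 + HX b sm X) ^ 2 + (X + 1) ≤ (3 * N + N) ^ 2 + (X + 1) := by gcongr
        _ = 16 * N ^ 2 + (X + 1) := by ring
        _ ≤ 16 * X + (X + 1) := by gcongr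
        _ ≤ Y := by omega
    hcl := fun g _ j => hi3 g j
    hGR := by
      have h1 : ((WX X * GX b X : ℕ) : ℝ) ≤ R := by
        have := hℓT (b + 3) (by omega) 1 cb4
        linarith
      exact_mod_cast h1
    hGm := by rw [hmb]
    hinj := hinj
    hhW := fun j => by
      have := hsm j
      omega
    hC1 := fun i => by rw [hC1]; exact hr3 i
    hC11 := hC11
    hPz := filter_subset _ _
    hWz := fun p hp hd => by
      rw [hWz0, dvd_Wz z0 p hp] at hd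
      omega
    hz := by omega
    hΞ1 := hze1 z0 z_e1 _ (Real.log_nonneg (by exact_mod_cast hH1)) hLH
    hΞ2 := hze2 z0 z_e2 _ (Real.log_nonneg (by exact_mod_cast hH1)) hLH
    hΞ0 := hΞ0.le
    hΞθ := by rw [hΞ]; rw [mul_div_cancel₀ _ (by positivity)]
    hθ := hθ
    hη := by
      have h1 : Real.log ((WX X * GX b X : ℕ) : ℝ) ≤ Real.log (ℓ ^ (b + 3)) := by
        apply Real.log_le_log _ hWG_le
        have : 0 < WX X * GX b X := Nat.mul_pos hW1 hG1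
        exact_mod_cast this
      rw [Real.log_pow] at h1
      have h2 := hzl z0 z_l
      rw [div_le_iff₀ hθ0] at h2
      push_cast at h1 ⊢
      calc _ ≤ ((b : ℝ) + 3) * Real.log ℓ := h1
        _ ≤ ((b : ℝ) + 3) * (2 * z0) := mul_le_mul_of_nonneg_left hz0l2 (by positivity)
        _ = (2 * ((b : ℝ) + 3)) * z0 := by ring
        _ ≤ (Real.log z0 * θ) * z0 := mul_le_mul_of_nonneg_right h2 (by linarith)
        _ = _ := by ring
    he0 := by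
      rw [← hS, hXe]
      apply kk C1 θ (S * X) (WX X) ℓ _ hW1r hW_le (by positivity)
      have h1 := hcT 0 (by norm_num)
      rw [pow_zero, mul_one] at h1
      calc (S + X + 1) * C1 ^ 2 * ℓ ^ 4 ≤ (4 * X) * C1 ^ 2 * ℓ ^ 4 := by gcongr
        _ ≤ (20 * X) * C1 ^ 2 * ℓ ^ 4 := by gcongr; norm_num
        _ = (20 * C1 ^ 2 * ℓ ^ 4) * X := by ring
        _ ≤ (θ * S) * X := mul_le_mul_of_nonneg_right h1 (by linarith)
        _ = _ := by ring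
    herr0 := by
      rw [← hS, hXe]
      apply kk C1 θ (S * X) (WX X) ℓ _ hW1r hW_le (by positivity)
      have h1 := hcT 156 (by norm_num)
      calc (S + X + 1) * ((R ^ 4 : ℕ) : ℝ) ^ 3 * C1 ^ 2 * ℓ ^ 4 ≤
            (4 * X) * T ^ 156 * C1 ^ 2 * ℓ ^ 4 := by gcongr
        _ ≤ (20 * X) * T ^ 156 * C1 ^ 2 * ℓ ^ 4 := by gcongr; norm_num
        _ = (20 * C1 ^ 2 * ℓ ^ 4 * T ^ 156) * X := by ring
        _ ≤ (θ * S) * X := mul_le_mul_of_nonneg_right h1 (by linarith)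
        _ = _ := by ring
    herr1 := by
      rw [← hS, hXe]
      apply kk C1 θ (S * X) (WX X) ℓ _ hW1r hW_le (by positivity)
      have h1 := hcT 104 (by norm_num)
      have h2 := hpU 4 (by omega) (160 * C1 ^ 2) (by positivity) (by gcongr; norm_num)
      have h3 : 4 * S * EB * C1 ^ 2 * ℓ ^ 4 ≤ θ / 2 * (S * X) := by
        calc 4 * S * EB * C1 ^ 2 * ℓ ^ 4 ≤ 4 * S * (20 * X / ℓ ^ U) * C1 ^ 2 * ℓ ^ 4 := by
              gcongr
          _ = (160 * C1 ^ 2 * ℓ ^ 4 / ℓ ^ U) / 2 * (S * X) := by ring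
          _ ≤ _ := by gcongr
      have h4 : X * ((R ^ 4 : ℕ) : ℝ) ^ 2 * C1 ^ 2 * ℓ ^ 4 ≤ θ / 2 * (S * X) := by
        calc X * ((R ^ 4 : ℕ) : ℝ) ^ 2 * C1 ^ 2 * ℓ ^ 4 ≤
              X * T ^ 104 * C1 ^ 2 * ℓ ^ 4 := by gcongr
          _ = (C1 ^ 2 * ℓ ^ 4 * T ^ 104) * X := by ring
          _ ≤ ((20 * C1 ^ 2 * ℓ ^ 4 * T ^ 104) / 2) * X := by
              apply mul_le_mul_of_nonneg_right _ (by linarith)
              have : 0 ≤ C1 ^ 2 * ℓ ^ 4 * T ^ 104 := by positivity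
              linarith
          _ ≤ ((θ * S) / 2) * X := by gcongr
          _ = _ := by ring
      calc _ = 4 * S * EB * C1 ^ 2 * ℓ ^ 4 + X * ((R ^ 4 : ℕ) : ℝ) ^ 2 * C1 ^ 2 * ℓ ^ 4 := by ring
        _ ≤ θ / 2 * (S * X) + θ / 2 * (S * X) := add_le_add h3 h4
        _ = _ := by ring
    herr2 := by
      rw [← hS, hXe]
      apply kk C1 θ (S * X) (WX X) ℓ _ hW1r hW_le (by positivity)
      rw [hB2]
      have h1 : C1 ^ 2 ≤ θ * ℓ :=
        le_trans (by linarith only [sq_nonneg C1]) hc84'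
      have hℓ5 : (0 : ℝ) < ℓ ^ 5 := by positivity
      have h2 : X * S / ℓ ^ 5 * C1 ^ 2 * ℓ ^ 4 = C1 ^ 2 * (S * X) * ℓ ^ 4 / ℓ ^ 5 := by ring
      rw [h2, div_le_iff₀ hℓ5]
      calc C1 ^ 2 * (S * X) * ℓ ^ 4 ≤ (θ * ℓ) * (S * X) * ℓ ^ 4 := by gcongr
        _ = _ := by ring
    hE2b0 := by
      rw [← hS]
      positivity
    hEB := hEB0
    hdiag := by
      have hφ : (1 : ℝ) ≤ Nat.totient (WX X) := by exact_mod_cast Nat.totient_pos.2 hW1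
      have h1 : (WX X : ℝ) / Nat.totient (WX X) ≤ ℓ ^ 2 := (div_le_self (by positivity) hφ).trans hW_le
      have h2 : Real.exp (∑ t : Pz z0 R, 2 ^ (Fintype.card (Fin 2 × Bool × J)) * (12 / ((t : ℕ) : ℝ))) ≤
          Real.exp A4 * (2 * ℓ) ^ A4 := by
        have h3 : ∑ t : Pz z0 R, 2 ^ (Fintype.card (Fin 2 × Bool × J)) * (12 / ((t : ℕ) : ℝ)) ≤
            (A4 : ℝ) * (Real.log (Real.log Y) + 1) := by
          calc _ ≤ ∑ t : Pz z0 R, (A4 : ℝ) * (1 / (((t : ℕ) : ℝ) - 1)) := by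
                apply sum_le_sum
                intro t _
                have ht3 : (3 : ℝ) ≤ (t : ℕ) := by exact_mod_cast hP3 t t.2
                rw [hA4]
                push_cast
                have h4 : 12 / ((t : ℕ) : ℝ) ≤ 12 / (((t : ℕ) : ℝ) - 1) := by
                  apply div_le_div_of_nonneg_left (by norm_num) (by linarith) (by linarith)
                calc (2 : ℝ) ^ (Fintype.card (Fin 2 × Bool × J)) * (12 / ((t : ℕ) : ℝ)) ≤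
                      (2 : ℝ) ^ (Fintype.card (Fin 2 × Bool × J)) * (12 / (((t : ℕ) : ℝ) - 1)) := by
                      gcongr
                  _ = _ := by ring
            _ ≤ _ := by
                rw [← mul_sum]
                exact mul_le_mul_of_nonneg_left hsum (by positivity)
        calc _ ≤ Real.exp ((A4 : ℝ) * (Real.log (Real.log Y) + 1)) := Real.exp_le_exp.2 h3
          _ = Real.exp A4 * (Real.log Y) ^ A4 := by
              rw [mul_add, mul_one, Real.exp_add, mul_comm]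
              congr 1
              rw [mul_comm, Real.exp_mul, Real.exp_log hlYp, Real.rpow_natCast]
          _ ≤ _ := by gcongr
      have he1 : (1 : ℝ) ≤ Real.exp A4 := Real.one_le_exp (by positivity)
      have h2A : (1 : ℝ) ≤ 2 ^ A4 := one_le_pow₀ (by norm_num)
      have h5 : Real.log Y * ((WX X : ℝ) / Nat.totient (WX X) *
          Real.exp (∑ t : Pz z0 R, 2 ^ (Fintype.card (Fin 2 × Bool × J)) * (12 / ((t : ℕ) : ℝ))) + 1) ≤
          4 * (Real.exp A4 * 2 ^ A4) * ℓ ^ (A4 + 3) := by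
        calc _ ≤ (2 * ℓ) * (ℓ ^ 2 * (Real.exp A4 * (2 * ℓ) ^ A4) + 1) := by gcongr
          _ = (2 * ℓ) * (ℓ ^ 2 * ((Real.exp A4 * 2 ^ A4) * ℓ ^ A4) + 1) := by rw [mul_pow]; ring
          _ ≤ (2 * ℓ) * (ℓ ^ 2 * ((Real.exp A4 * 2 ^ A4) * ℓ ^ A4) +
              ℓ ^ 2 * ((Real.exp A4 * 2 ^ A4) * ℓ ^ A4)) := by
              have a3 : (1 : ℝ) ≤ ℓ ^ 2 * ((Real.exp A4 * 2 ^ A4) * ℓ ^ A4) :=
                one_le_mul_of_one_le_of_one_le (hp1 2)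
                  (one_le_mul_of_one_le_of_one_le (one_le_mul_of_one_le_of_one_le he1 h2A) (hp1 A4))
              exact mul_le_mul_of_nonneg_left (add_le_add le_rfl a3) (by positivity)
          _ = _ := by rw [pow_add]; ring
      have h6 : 4 * C1 ^ 2 * (Real.exp A4 * 2 ^ A4) ≤ θ * ℓ := by
        have := cb3.trans lcb
        rw [div_le_iff₀ hθ0] at this
        rw [mul_comm θ ℓ]
        exact this
      calc _ ≤ C1 ^ 2 * (4 * (Real.exp A4 * 2 ^ A4) * ℓ ^ (A4 + 3)) :=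
            mul_le_mul_of_nonneg_left h5 (by positivity)
        _ = (4 * C1 ^ 2 * (Real.exp A4 * 2 ^ A4)) * ℓ ^ (A4 + 3) := by ring
        _ ≤ (θ * ℓ) * ℓ ^ (A4 + 3) := mul_le_mul_of_nonneg_right h6 (by positivity)
        _ = θ * ℓ ^ b := by rw [hb, ← hA4, show A4 + 4 = (A4 + 3) + 1 by ring, pow_succ ℓ (A4 + 3)]; ring
        _ ≤ θ * GX b X := mul_le_mul_of_nonneg_left hG_ge hθ0.le
    hlogY := by linarith }
  obtain ⟨B, hB1, hB2, hB3⟩ := D.class_bad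
  have hκ : D.κ = (((m2 : ℝ) - m1) * X / (WX X : ℝ) ^ 2) := by
    show ((m2 : ℝ) - m1) * (((X + 1 : ℕ) : ℝ) - ((1 : ℕ) : ℝ)) / (WX X : ℝ) ^ 2 = _
    rw [hXe]
  refine ⟨B, hB1, by rw [← hκ]; exact hB2, ?_⟩
  intro n hn hnB
  obtain ⟨k1, k2⟩ := hB3 n hn hnB
  have hcond : 3 * m * Real.log D.Y * D.MM none < D.om * ∑ l, D.MM (some l) := by
    have a1 : 0 < D.MM none := D.MM_pos none
    have a2 : c0 * Real.log z0 ≤ D.om := by
      show c0 * Real.log z0 ≤ (WX X : ℝ) / Nat.totient (WX X)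
      rw [hWz0]
      exact hzc z0 z_c
    have a3 : ∀ l, ((K : ℝ) + 1) * (Real.log R / Real.log z0) / (96000 * 2 ^ K) * D.MM none ≤
        D.MM (some l) := fun l => hr2 l
    have a4 : ((K : ℝ) + 1) * (Real.log R / Real.log z0) / 96000 * D.MM none ≤
        ∑ l, D.MM (some l) := by
      have := card_nsmul_le_sum (univ : Finset J) (fun l => D.MM (some l)) _ (fun l _ => a3 l)
      rw [card_univ, hJ, nsmul_eq_mul] at this
      refine le_trans (le_of_eq ?_) this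
      push_cast
      field_simp
    have a5 : 0 < Real.log R := by linarith
    have a6 : 0 ≤ ((K : ℝ) + 1) * (Real.log R / Real.log z0) / 96000 * D.MM none := by
      have : 0 < Real.log z0 := by linarith
      positivity
    calc 3 * m * Real.log D.Y * D.MM none ≤ 3 * m * (110 * Real.log R) * D.MM none := by
          have : Real.log D.Y ≤ 110 * Real.log R := hRY110
          gcongr
      _ = (31680000 * (m : ℝ)) * (Real.log R / 96000 * D.MM none) := by ring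
      _ < (c0 * (K + 1)) * (Real.log R / 96000 * D.MM none) := by
          apply mul_lt_mul_of_pos_right hK
          positivity
      _ = (c0 * Real.log z0) * (((K : ℝ) + 1) * (Real.log R / Real.log z0) / 96000 * D.MM none) := by
          have : Real.log z0 ≠ 0 := by linarith
          field_simp
      _ ≤ D.om * (((K : ℝ) + 1) * (Real.log R / Real.log z0) / 96000 * D.MM none) :=
          mul_le_mul_of_nonneg_right a2 a6
      _ ≤ _ := mul_le_mul_of_nonneg_left a4 (by linarith [D.om_ge])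
  obtain ⟨g, hg, hgm⟩ := D.cluster m hcond n hn k1 k2
  have h1 : WX X * (g + 1) ≤ WX X * GX b X := Nat.mul_le_mul_left _ hg
  have h2 : WX X * (g + 1) = WX X * g + WX X := by ring
  refine ⟨i0 + WX X * g, Nat.lt_of_lt_of_le hi1 (Nat.le_add_right _ _), ?_, ?_⟩
  · rw [zero_add] at hi2
    calc i0 + WX X * g ≤ WX X + WX X * g := Nat.add_le_add_right hi2 _
      _ = WX X * (g + 1) := by rw [h2, add_comm]
      _ ≤ _ := h1
  · exact hgm

end Pool.Agent.H43.X6.BC
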