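import Pool.Agent.H43.BC.F7

set_option autoImplicit false
set_option linter.unusedSectionVars false

/-! Parameters. -/

namespace Pool.Agent.H43.X6.BC

open Pool.Agent.H43.BC

open Finset Filter

noncomputable def zX (X : ℕ) : ℕ := ⌊Real.log (Real.log X)⌋₊
noncomputable def WX (X : ℕ) : ℕ := Wz (zX X)
noncomputable def GX (b X : ℕ) : ℕ := ⌈Real.log X ^ b⌉₊
noncomputable def HX (b sm X : ℕ) : ℕ := WX X + WX X * GX b X + sm
noncomputable def TX (X : ℕ) : ℝ := (X : ℝ) ^ (1 / 1300 : ℝ)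
noncomputable def RX (X : ℕ) : ℕ := ⌊TX X ^ 13⌋₊
noncomputable def LX (a X N : ℕ) : ℕ := N / GX a X + 1

/-- the numerical facts -/
structure Fct (b sm a e : ℕ) (ε cc : ℝ) (X N : ℕ) : Prop where
  l4 : 4 ≤ Real.log X
  lc : cc ≤ Real.log X
  W_le : (WX X : ℝ) ≤ Real.log X ^ 2
  G_ge : Real.log X ^ b ≤ GX b X
  WG_le : ((WX X * GX b X : ℕ) : ℝ) ≤ Real.log X ^ (b + 3)
  H_le : (HX b sm X : ℝ) ≤ Real.log X ^ (b + 6)
  W1 : 1 ≤ WX X
  T1 : 1 ≤ TX X
  HT : cc * Real.log X ^ e ≤ TX X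
  T_X : TX X ^ 1300 = X
  R_ge : TX X ^ 12 ≤ RX X
  R_le : (RX X : ℝ) ≤ TX X ^ 13
  RY : Real.log ((20 * X : ℕ) : ℝ) ≤ 110 * Real.log (RX X)
  lY : Real.log ((20 * X : ℕ) : ℝ) ≤ 2 * Real.log X
  lY' : Real.log ((2 * (20 * X) : ℕ) : ℝ) ≤ 2 * Real.log X
  K_ge : Real.log X ^ a ≤ GX a X
  K_le : (GX a X : ℝ) ≤ Real.log X ^ (a + 1)
  N_ge : TX X ^ 216 ≤ N
  N_le : (N : ℝ) ≤ TX X ^ 650
  L_ge : ((2 * (20 * X) : ℕ) : ℝ) ^ (1 / 6 + ε / 2) ≤ LX a X N
  KL_ge : N ≤ GX a X * LX a X N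
  KL_le : GX a X * LX a X N ≤ 2 * N

theorem fct_evt (b sm a e : ℕ) (ε cc : ℝ) (hε : 0 < ε) : ∃ X0 : ℕ, ∀ X : ℕ, X0 ≤ X → ∀ N : ℕ,
    (X : ℝ) ^ (1 / 6 + ε) ≤ N → N ^ 2 ≤ X → Fct b sm a e ε cc X N := by
  obtain ⟨X0, hX0⟩ := eventually_atTop.1 ((evt_log_pow (1 / 1300) (by norm_num) (max cc 8)
    (e + (a + 2))).and ((evt_log_ge (max cc (max 4 (max sm (Real.log 40 * 1300))))).and
      ((evt_log_pow (ε / 2) (by positivity) 40 (a + 1)).and (eventually_ge_atTop 3))))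
  refine ⟨X0, fun X hX N hN1 hN2 => ?_⟩
  obtain ⟨g1, g2, g4, g3⟩ := hX0 X hX
  have hX3 : (3 : ℝ) ≤ X := by exact_mod_cast g3
  have hX0' : (0 : ℝ) < X := by linarith
  obtain ⟨ℓ, hℓ⟩ : ∃ ℓ, ℓ = Real.log X := ⟨_, rfl⟩
  rw [← hℓ] at g1 g2 g4
  have l4 : 4 ≤ ℓ := (le_trans (le_max_left _ _) (le_max_right _ _)).trans g2
  have lsm : (sm : ℝ) ≤ ℓ :=
    (((le_max_left _ _).trans (le_max_right _ _)).trans (le_max_right _ _)).trans g2
  have l40 : Real.log 40 * 1300 ≤ ℓ :=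
    (((le_max_right _ _).trans (le_max_right _ _)).trans (le_max_right _ _)).trans g2
  have lc : cc ≤ ℓ := (le_max_left _ _).trans g2
  have hp1 : ∀ n : ℕ, 1 ≤ ℓ ^ n := fun n => one_le_pow₀ (by linarith)
  have hpm : ∀ m n : ℕ, m ≤ n → ℓ ^ m ≤ ℓ ^ n := fun m n h => pow_le_pow_right₀ (by linarith) h
  obtain ⟨T, hT⟩ : ∃ T, T = TX X := ⟨_, rfl⟩
  have hT' : T = (X : ℝ) ^ (1 / 1300 : ℝ) := hT
  rw [← hT'] at g1
  have hT8 : 8 * ℓ ^ (e + (a + 2)) ≤ T :=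
    (mul_le_mul_of_nonneg_right (le_max_right cc 8) (by linarith [hp1 (e + (a + 2))])).trans g1
  have hTc : cc * ℓ ^ e ≤ T := by
    refine le_trans ?_ g1
    calc cc * ℓ ^ e ≤ max cc 8 * ℓ ^ e :=
          mul_le_mul_of_nonneg_right (le_max_left cc 8) (by linarith [hp1 e])
      _ ≤ max cc 8 * ℓ ^ (e + (a + 2)) := mul_le_mul_of_nonneg_left (hpm _ _ (by omega))
          (le_trans (by norm_num) (le_max_right cc 8))
  have hT1 : 8 ≤ T := by
    have := hp1 (e + (a + 2))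
    linarith
  have hT0 : 0 < T := by linarith
  have hTX : T ^ 1300 = X := by
    rw [hT', ← Real.rpow_natCast, ← Real.rpow_mul hX0'.le]
    norm_num
  have hlT : Real.log T = ℓ / 1300 := by
    rw [hT', Real.log_rpow hX0', ← hℓ]; ring
  -- W
  have hll : 0 ≤ Real.log ℓ := Real.log_nonneg (by linarith)
  have hW : (WX X : ℝ) ≤ ℓ ^ 2 := by
    have h1 : (WX X : ℝ) ≤ (4 : ℝ) ^ (zX X) := by
      have := Wz_le (zX X)
      unfold WX
      exact_mod_cast this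
    have h2 : ((zX X : ℕ) : ℝ) ≤ Real.log ℓ := by
      unfold zX
      rw [← hℓ]
      exact Nat.floor_le hll
    have h3 : (4 : ℝ) ^ (zX X) = Real.exp (zX X * Real.log 4) := by
      rw [mul_comm, Real.exp_mul, Real.exp_log (by norm_num), Real.rpow_natCast]
    have h4 : Real.log 4 ≤ 2 := by
      have : Real.log 4 = 2 * Real.log 2 := by
        rw [show (4 : ℝ) = 2 ^ 2 by norm_num, Real.log_pow]; norm_num
      rw [this]
      have := Real.log_two_lt_d9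
      linarith
    have h5 : (zX X : ℝ) * Real.log 4 ≤ 2 * Real.log ℓ := by
      have h6 : 0 ≤ Real.log 4 := Real.log_nonneg (by norm_num)
      nlinarith
    have h6 : Real.exp (2 * Real.log ℓ) = ℓ ^ 2 := by
      rw [mul_comm, Real.exp_mul, Real.exp_log (by linarith)]
      norm_num
    calc (WX X : ℝ) ≤ Real.exp (zX X * Real.log 4) := by rw [← h3]; exact h1
      _ ≤ Real.exp (2 * Real.log ℓ) := Real.exp_le_exp.2 h5
      _ = _ := h6
  have hW1 : 1 ≤ WX X := Wz_pos _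
  have hG1 : ∀ b : ℕ, ℓ ^ b ≤ GX b X := by intro b; unfold GX; rw [← hℓ]; exact Nat.le_ceil _
  have hG2 : ∀ b : ℕ, (GX b X : ℝ) ≤ 2 * ℓ ^ b := by
    intro b
    unfold GX
    rw [← hℓ]
    have := Nat.ceil_lt_add_one (show (0 : ℝ) ≤ ℓ ^ b by linarith [hp1 b])
    linarith [hp1 b]
  have hWG : ((WX X * GX b X : ℕ) : ℝ) ≤ ℓ ^ (b + 3) := by
    push_cast
    calc (WX X : ℝ) * GX b X ≤ ℓ ^ 2 * (2 * ℓ ^ b) := by
          have := hG2 b
          gcongr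
      _ = 2 * ℓ ^ (b + 2) := by ring
      _ ≤ ℓ * ℓ ^ (b + 2) := by
          apply mul_le_mul_of_nonneg_right (by linarith) (by linarith [hp1 (b + 2)])
      _ = _ := by ring
  have hHm : (HX b sm X : ℝ) ≤ ℓ ^ (b + 6) := by
    unfold HX
    push_cast at hWG ⊢
    have a2 : (WX X : ℝ) ≤ ℓ ^ (b + 5) := hW.trans (hpm _ _ (by omega))
    have a3 : (WX X : ℝ) * GX b X ≤ ℓ ^ (b + 5) := hWG.trans (hpm _ _ (by omega))
    have a4 : (sm : ℝ) ≤ ℓ ^ (b + 5) := lsm.trans (by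
      calc ℓ = ℓ ^ 1 := (pow_one ℓ).symm
        _ ≤ _ := hpm _ _ (by omega))
    rw [show b + 6 = (b + 5) + 1 by ring, pow_succ ℓ (b + 5)]
    have := hp1 (b + 5)
    nlinarith
  have hR2 : (RX X : ℝ) ≤ T ^ 13 := by
    unfold RX
    rw [← hT]
    exact Nat.floor_le (by positivity)
  have hR1 : T ^ 12 ≤ RX X := by
    have h1 : T ^ 13 - 1 < RX X := by
      unfold RX
      rw [← hT]
      exact Nat.sub_one_lt_floor _
    have h2 : T ^ 13 = T * T ^ 12 := by ring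
    have h3 : 1 ≤ T ^ 12 := one_le_pow₀ (by linarith)
    nlinarith
  have hlR : 12 * (ℓ / 1300) ≤ Real.log (RX X) := by
    have h1 := Real.log_le_log (by positivity) hR1
    rw [Real.log_pow, hlT] at h1
    push_cast at h1
    exact h1
  have hl40 : Real.log (40 * X) ≤ ℓ + ℓ / 1300 := by
    rw [Real.log_mul (by norm_num) (by positivity), ← hℓ]
    linarith
  have hl20 : Real.log ((20 * X : ℕ) : ℝ) ≤ ℓ + ℓ / 1300 := by
    refine le_trans (Real.log_le_log (by push_cast; positivity) ?_) hl40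
    push_cast
    linarith
  have hTm : ∀ m n : ℕ, m ≤ n → T ^ m ≤ T ^ n := fun m n h => pow_le_pow_right₀ (by linarith) h
  -- N
  have hN0 : (0 : ℝ) < N := lt_of_lt_of_le (Real.rpow_pos_of_pos hX0' _) hN1
  have hNge : T ^ 216 ≤ N := by
    refine le_trans ?_ hN1
    rw [hT', ← Real.rpow_natCast, ← Real.rpow_mul hX0'.le]
    apply Real.rpow_le_rpow_of_exponent_le (by linarith)
    push_cast
    linarith
  have hNle : (N : ℝ) ≤ T ^ 650 := by
    have h1 : (N : ℝ) ^ 2 ≤ (T ^ 650) ^ 2 := by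
      calc (N : ℝ) ^ 2 ≤ X := by exact_mod_cast hN2
        _ = (T ^ 650) ^ 2 := by rw [← hTX]; ring
    exact le_of_sq_le_sq h1 (by positivity)
  have hε1 : ε ≤ 1 / 3 := by
    by_contra hcon
    push_neg at hcon
    have h1 : (X : ℝ) ^ (1 / 2 : ℝ) < (X : ℝ) ^ (1 / 6 + ε) :=
      Real.rpow_lt_rpow_of_exponent_lt (by linarith) (by linarith)
    have h2 : (X : ℝ) ^ (1 / 2 : ℝ) = T ^ 650 := by
      rw [hT', ← Real.rpow_natCast, ← Real.rpow_mul hX0'.le]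
      norm_num
    linarith
  have hK0 : (0 : ℝ) < GX a X := lt_of_lt_of_le (by positivity) (hG1 a)
  have hK0' : 0 < GX a X := by exact_mod_cast hK0
  have hKle : (GX a X : ℝ) ≤ ℓ ^ (a + 1) := by
    calc (GX a X : ℝ) ≤ 2 * ℓ ^ a := hG2 a
      _ ≤ ℓ * ℓ ^ a := mul_le_mul_of_nonneg_right (by linarith) (by linarith [hp1 a])
      _ = _ := by ring
  have hKL1 : N ≤ GX a X * LX a X N := by
    unfold LX
    have := Nat.lt_mul_div_succ N hK0'
    exact this.le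
  have hKN : GX a X ≤ N := by
    have : (GX a X : ℝ) ≤ N := by
      calc (GX a X : ℝ) ≤ ℓ ^ (a + 1) := hKle
        _ ≤ ℓ ^ (e + (a + 2)) := hpm _ _ (by omega)
        _ ≤ T := by linarith [hp1 (e + (a + 2))]
        _ = T ^ 1 := (pow_one T).symm
        _ ≤ T ^ 216 := hTm _ _ (by norm_num)
        _ ≤ N := hNge
    exact_mod_cast this
  have hKL2 : GX a X * LX a X N ≤ 2 * N := by
    unfold LX
    have := Nat.mul_div_le N (GX a X)
    rw [mul_add, mul_one]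
    omega
  have hLge : ((2 * (20 * X) : ℕ) : ℝ) ^ (1 / 6 + ε / 2) ≤ LX a X N := by
    have h1 : (N : ℝ) ≤ GX a X * LX a X N := by exact_mod_cast hKL1
    have h2 : ((2 * (20 * X) : ℕ) : ℝ) ^ (1 / 6 + ε / 2) ≤ 40 * (X : ℝ) ^ (1 / 6 + ε / 2) := by
      have h3 : ((2 * (20 * X) : ℕ) : ℝ) = 40 * X := by push_cast; ring
      rw [h3, Real.mul_rpow (by norm_num) hX0'.le]
      apply mul_le_mul_of_nonneg_right _ (by positivity)
      calc (40 : ℝ) ^ (1 / 6 + ε / 2) ≤ (40 : ℝ) ^ (1 : ℝ) :=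
            Real.rpow_le_rpow_of_exponent_le (by norm_num) (by linarith)
        _ = 40 := Real.rpow_one _
    refine h2.trans ?_
    have h3 : 40 * (X : ℝ) ^ (1 / 6 + ε / 2) * GX a X ≤ N := by
      refine le_trans ?_ hN1
      have h4 : (X : ℝ) ^ (1 / 6 + ε) = (X : ℝ) ^ (1 / 6 + ε / 2) * (X : ℝ) ^ (ε / 2) := by
        rw [← Real.rpow_add hX0']
        congr 1
        ring
      rw [h4]
      calc 40 * (X : ℝ) ^ (1 / 6 + ε / 2) * GX a X ≤ 40 * (X : ℝ) ^ (1 / 6 + ε / 2) * ℓ ^ (a + 1) := by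
            gcongr
        _ = (X : ℝ) ^ (1 / 6 + ε / 2) * (40 * ℓ ^ (a + 1)) := by ring
        _ ≤ _ := mul_le_mul_of_nonneg_left g4 (by positivity)
    have h5 : 40 * (X : ℝ) ^ (1 / 6 + ε / 2) * GX a X ≤ LX a X N * GX a X := by
      calc _ ≤ (N : ℝ) := h3
        _ ≤ _ := by linarith
    exact le_of_mul_le_mul_right h5 hK0
  exact {
    l4 := by rw [← hℓ]; exact l4
    lc := by rw [← hℓ]; exact lc
    W_le := by rw [← hℓ]; exact hW
    G_ge := by rw [← hℓ]; exact hG1 b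
    WG_le := by rw [← hℓ]; exact hWG
    H_le := by rw [← hℓ]; exact hHm
    W1 := hW1
    T1 := by rw [← hT]; linarith
    HT := by rw [← hℓ, ← hT]; exact hTc
    T_X := by rw [← hT]; exact hTX
    R_ge := by rw [← hT]; exact hR1
    R_le := by rw [← hT]; exact hR2
    RY := by linarith
    lY := by rw [← hℓ]; linarith
    lY' := by
      rw [← hℓ]
      have : ((2 * (20 * X) : ℕ) : ℝ) = 40 * X := by push_cast; ring
      rw [this]
      linarith
    K_ge := by rw [← hℓ]; exact hG1 a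
    K_le := by rw [← hℓ]; exact hKle
    N_ge := by rw [← hT]; exact hNge
    N_le := by rw [← hT]; exact hNle
    L_ge := hLge
    KL_ge := hKL1
    KL_le := hKL2 }

end Pool.Agent.H43.X6.BC
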