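import Pool.Agent.H43.X6.BC.F8
import Pool.Agent.H43.X6.BC.F8a
import Pool.Agent.H43.BC.AV3
import Pool.Agent.H43.X6.BC.An3

set_option autoImplicit false
set_option linter.unusedSectionVars false

/-! Bound for the average error. -/

namespace Pool.Agent.H43.X6.BC

open Pool.Agent.H43.BC

open Finset Filter

theorem sum_TT_le {P : Finset ℕ} (hP : ∀ p ∈ P, p.Prime) (Q k0 Q1 : ℕ) (hk0 : 1 ≤ k0)
    (hQ1 : k0 * Q ≤ Q1) (f : ℕ → ℝ) (hf : ∀ k, 0 ≤ f k) :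
    ∑ T ∈ (univ : Finset (Finset P)).filter (fun T => TT T ≤ Q), f (k0 * TT T) ≤
      ∑ k ∈ Icc 1 Q1, f k := by
  classical
  have h2 : ∑ T ∈ (univ : Finset (Finset P)).filter (fun T => TT T ≤ Q), f (k0 * TT T) =
      ∑ k ∈ ((univ : Finset (Finset P)).filter (fun T => TT T ≤ Q)).image (fun T => k0 * TT T),
        f k := by
    rw [sum_image]
    intro T _ T' _ h
    exact TT_inj hP (Nat.eq_of_mul_eq_mul_left hk0 h)
  rw [h2]
  apply sum_le_sum_of_subset_of_nonneg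
  · intro q hq
    rw [mem_image] at hq
    obtain ⟨T, hT, rfl⟩ := hq
    rw [mem_Icc]
    refine ⟨Nat.mul_pos hk0 (TT_pos' hP T), ?_⟩
    exact (Nat.mul_le_mul_left k0 (mem_filter.1 hT).2).trans hQ1
  · intro k _ _
    exact hf k

theorem avb_bound (Cn b B2 a e U : ℕ) (hCn : 1 ≤ Cn) (he : e = 2 * Cn ^ 2)
    (ha : a = b + e + B2 + 6) (hU : U = b + B2 + 4) (ε : ℝ) (hε : 0 < ε) :
    ∃ X0 : ℕ, ∀ X : ℕ, X0 ≤ X → ∀ (sm e' N : ℕ) (cc : ℝ), a + B2 + 4 ≤ e' → 1 ≤ cc → b + 6 ≤ e' →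
      Fct b sm a e' ε cc X N → ∀ (P : Finset ℕ), (∀ p ∈ P, p.Prime) → (∀ p ∈ P, 3 ≤ p) →
      (∀ p ∈ P, (Cn : ℝ) ≤ p) → (∀ p ∈ P, ¬ p ∣ WX X) →
      ∑ t : P, 1 / (((t : ℕ) : ℝ) - 1) ≤ Real.log (Real.log ((20 * X : ℕ) : ℝ)) + 1 →
      ∀ (M : ℕ → ℝ), (∀ q, 0 ≤ M q) → ∀ (R Q : ℕ), (Q : ℝ) ≤ TX X ^ 52 →
      ∀ mb : ℕ, mb = 2 * (WX X * GX b X) * WX X →
      BS P M Q (2 * Cn) (WX X) ≤ ((20 * X : ℕ) : ℝ) / (Real.log ((20 * X : ℕ) : ℝ)) ^ U →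
      ∀ m1 m2 : ℕ, m2 = m1 + GX a X * LX a X N → ∀ δ : ℕ, 1 ≤ δ → 2 * δ * WX X ≤ mb →
      AVb P M Q Cn m1 m2 (LX a X N) (GX a X) (WX X) (mb * Q) R (20 * X) δ ≤
        X * ((m2 : ℝ) - m1) / (Real.log X) ^ B2 := by
  classical
  obtain ⟨Xb, hXb⟩ := bdhs (θ := 1 / 6 + ε / 2) (by linarith) (2 * a)
  obtain ⟨X0, hX0⟩ := eventually_atTop.1 ((evt_log_ge (max 5120 (Real.exp e * 2 ^ e))).and
    ((eventually_ge_atTop Xb).and (eventually_ge_atTop 3)))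
  refine ⟨X0, fun X hX sm e' N cc he1 hcc he2 F P hP hP3 hPc hPW hsum M hM0 R Q hQ mb hmb hBS m1 m2
    hm2 δ hδ hδm => ?_⟩
  obtain ⟨g1, g2, g3⟩ := hX0 X hX
  have hX3 : (3 : ℝ) ≤ X := by exact_mod_cast g3
  obtain ⟨ℓ, hℓ⟩ : ∃ ℓ, ℓ = Real.log X := ⟨_, rfl⟩
  rw [← hℓ] at g1
  have l5120 : 5120 ≤ ℓ := (le_max_left _ _).trans g1
  have lexp : Real.exp e * 2 ^ e ≤ ℓ := (le_max_right _ _).trans g1
  have hp1 : ∀ n : ℕ, 1 ≤ ℓ ^ n := fun n => one_le_pow₀ (by linarith)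
  have hpm : ∀ m n : ℕ, m ≤ n → ℓ ^ m ≤ ℓ ^ n := fun m n h => pow_le_pow_right₀ (by linarith) h
  obtain ⟨T, hT⟩ : ∃ T, T = TX X := ⟨_, rfl⟩
  rw [← hT] at hQ
  have hT1 : 1 ≤ T := by rw [hT]; exact F.T1
  have hTm : ∀ m n : ℕ, m ≤ n → T ^ m ≤ T ^ n := fun m n h => pow_le_pow_right₀ hT1 h
  have hTX : T ^ 1300 = X := by rw [hT]; exact F.T_X
  have heT : ∀ n : ℕ, n ≤ e' → ℓ ^ n ≤ T := by
    intro n hn
    have h1 := F.HT
    rw [← hℓ, ← hT] at h1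
    calc ℓ ^ n ≤ ℓ ^ e' := hpm _ _ hn
      _ ≤ cc * ℓ ^ e' := le_mul_of_one_le_left (by positivity) hcc
      _ ≤ T := h1
  obtain ⟨W, hW⟩ : ∃ W, W = WX X := ⟨_, rfl⟩
  have hW1 : 1 ≤ W := by rw [hW]; exact F.W1
  have hW_le : (W : ℝ) ≤ ℓ ^ 2 := by rw [hW, hℓ]; exact F.W_le
  have hWG_le : ((W * GX b X : ℕ) : ℝ) ≤ ℓ ^ (b + 3) := by rw [hW, hℓ]; exact F.WG_le
  rw [← hW] at hmb hδm hPW hBS ⊢
  have hδ1 : δ ≤ W * GX b X := by
    rw [hmb] at hδm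
    have h1 : 2 * W * δ ≤ 2 * W * (W * GX b X) := by
      calc 2 * W * δ = 2 * δ * W := by ring
        _ ≤ _ := hδm
        _ = _ := by ring
    exact Nat.le_of_mul_le_mul_left h1 (by omega)
  have hδr : (δ : ℝ) ≤ ℓ ^ (b + 3) := le_trans (by exact_mod_cast hδ1) hWG_le
  have hδ0 : (0 : ℝ) < δ := by exact_mod_cast hδ
  have hmbT : (mb : ℝ) ≤ T := by
    have h1 : (mb : ℝ) = 2 * ((W * GX b X : ℕ) : ℝ) * W := by rw [hmb]; push_cast; ring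
    rw [h1]
    calc 2 * ((W * GX b X : ℕ) : ℝ) * W ≤ 2 * ℓ ^ (b + 3) * ℓ ^ 2 := by gcongr
      _ = 2 * ℓ ^ (b + 5) := by ring
      _ ≤ ℓ * ℓ ^ (b + 5) := mul_le_mul_of_nonneg_right (by linarith) (by linarith [hp1 (b + 5)])
      _ = ℓ ^ (b + 6) := by ring
      _ ≤ T := heT (b + 6) he2
  have hmbQ : ((mb * Q : ℕ) : ℝ) ≤ T ^ 53 := by
    push_cast
    calc (mb : ℝ) * Q ≤ T * T ^ 52 := by gcongr
      _ = _ := by ring
  obtain ⟨K, hK⟩ : ∃ K, K = GX a X := ⟨_, rfl⟩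
  obtain ⟨L, hL⟩ : ∃ L, L = LX a X N := ⟨_, rfl⟩
  rw [← hK, ← hL] at hm2 ⊢
  have hKge : ℓ ^ a ≤ K := by rw [hK, hℓ]; exact F.K_ge
  have hKle : (K : ℝ) ≤ ℓ ^ (a + 1) := by rw [hK, hℓ]; exact F.K_le
  have hL1 : 1 ≤ L := by rw [hL]; exact Nat.le_add_left 1 _
  have hL0 : (0 : ℝ) < L := by exact_mod_cast hL1
  have hKL1 : (N : ℝ) ≤ K * L := by rw [hK, hL]; exact_mod_cast F.KL_ge
  have hKL2 : (K : ℝ) * L ≤ 2 * N := by rw [hK, hL]; exact_mod_cast F.KL_le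
  have hN1 : T ^ 216 ≤ N := by rw [hT]; exact F.N_ge
  have hN2 : (N : ℝ) ≤ T ^ 650 := by rw [hT]; exact F.N_le
  have hY1 : ℓ ≤ Real.log ((20 * X : ℕ) : ℝ) := by
    rw [hℓ]
    apply Real.log_le_log (by linarith)
    push_cast; linarith
  have hY2 : Real.log ((20 * X : ℕ) : ℝ) ≤ 2 * ℓ := by rw [hℓ]; exact F.lY
  have hY1' : ℓ ≤ Real.log ((2 * (20 * X) : ℕ) : ℝ) := by
    rw [hℓ]
    apply Real.log_le_log (by linarith)
    push_cast; linarith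
  have hY2' : Real.log ((2 * (20 * X) : ℕ) : ℝ) ≤ 2 * ℓ := by rw [hℓ]; exact F.lY'
  have hmm : (m2 : ℝ) - m1 = K * L := by rw [hm2]; push_cast; ring
  -- the sum of squares
  obtain ⟨k0, hk0⟩ : ∃ k0, k0 = 2 * δ * W := ⟨_, rfl⟩
  have hk01 : 1 ≤ k0 := by
    rw [hk0]
    exact Nat.mul_pos (by omega) hW1
  have hlenr : (((2 * δ * L : ℕ)) : ℝ) = 2 * δ * L := by push_cast; ring
  have hLlen : (L : ℝ) ≤ ((2 * δ * L : ℕ) : ℝ) := by
    have : L ≤ 2 * δ * L := Nat.le_mul_of_pos_left L (by omega)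
    exact_mod_cast this
  have hbd := hXb (2 * (20 * X)) (by omega) (2 * δ * L)
    ((show ((2 * (20 * X) : ℕ) : ℝ) ^ (1 / 6 + ε / 2) ≤ L by rw [hL]; exact F.L_ge).trans hLlen)
    (by
      have h1 : ((2 * δ * L : ℕ) : ℝ) ≤ ((2 * (20 * X) : ℕ) : ℝ) := by
        rw [hlenr]
        have h2 : (L : ℝ) ≤ 2 * T ^ 650 := by
          have h3 : (1 : ℝ) ≤ K := (hp1 a).trans hKge
          calc (L : ℝ) = 1 * L := (one_mul _).symm
            _ ≤ K * L := mul_le_mul_of_nonneg_right h3 hL0.le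
            _ ≤ 2 * N := hKL2
            _ ≤ 2 * T ^ 650 := by linarith
        have h4 : (δ : ℝ) ≤ T := hδr.trans (heT _ (by omega))
        calc 2 * (δ : ℝ) * L ≤ 2 * T * (2 * T ^ 650) := by gcongr
          _ = 4 * T ^ 651 := by ring
          _ ≤ 4 * T ^ 1300 := mul_le_mul_of_nonneg_left (hTm _ _ (by norm_num)) (by norm_num)
          _ ≤ _ := by rw [hTX]; push_cast; linarith
      exact_mod_cast h1) R (k0 * Q) (by
      have h1 : k0 * Q ≤ mb * Q := Nat.mul_le_mul_right Q (by rw [hk0]; exact hδm)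
      have h2 : ((k0 * Q : ℕ) : ℝ) ≤ T ^ 53 := le_trans (by exact_mod_cast h1) hmbQ
      refine h2.trans ?_
      have hT' : T = (X : ℝ) ^ (1 / 1300 : ℝ) := hT
      rw [hT', ← Real.rpow_natCast, ← Real.rpow_mul (by linarith)]
      calc (X : ℝ) ^ (1 / 1300 * ((53 : ℕ) : ℝ)) ≤ (X : ℝ) ^ (1 / 24 : ℝ) := by
            apply Real.rpow_le_rpow_of_exponent_le (by linarith)
            norm_num
        _ ≤ _ := by
            apply Real.rpow_le_rpow (by linarith) _ (by norm_num)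
            push_cast
            linarith)
  obtain ⟨V, hV⟩ : ∃ V : ℝ, V = ((2 * (20 * X) : ℕ) : ℝ) * ((2 * δ * L : ℕ) : ℝ) ^ 2 /
    (Real.log ((2 * (20 * X) : ℕ) : ℝ)) ^ (2 * a) := ⟨_, rfl⟩
  rw [← hV] at hbd
  have hVle : V ≤ 2 * (20 * X) * (2 * δ * L) ^ 2 / ℓ ^ (2 * a) := by
    rw [hV]
    push_cast
    apply div_le_div_of_nonneg_left (by positivity) (by positivity)
    push_cast at hY1'
    exact pow_le_pow_left₀ (by linarith) hY1' _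
  have hVs : ∑ T ∈ (univ : Finset (Finset P)).filter (fun T => TT T ≤ Q),
      ∑ w ∈ Ico (R + 1) (2 * (20 * X)), ∑ b ∈ (range (2 * δ * (W * TT T))).filter
        (fun b => b.Coprime (2 * δ * (W * TT T))), Fs R w (2 * δ * L) (2 * δ * (W * TT T)) b ^ 2 ≤ V := by
    refine le_trans ?_ hbd
    rw [sum_comm (s := Ico (R + 1) (2 * (20 * X)))]
    have h1 := sum_TT_le hP Q k0 (k0 * Q) hk01 le_rfl
      (fun k => ∑ w ∈ Ico (R + 1) (2 * (20 * X)), ∑ b ∈ (range k).filter (fun b => b.Coprime k),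
        Fs R w (2 * δ * L) k b ^ 2) (fun k => by positivity)
    refine le_trans (le_of_eq ?_) h1
    apply sum_congr rfl
    intro T _
    rw [hk0, mul_assoc (2 * δ) W (TT T)]
  have hlamnn : 0 ≤ Real.log (Real.log ((20 * X : ℕ) : ℝ)) + 1 := by
    have : 0 ≤ Real.log (Real.log ((20 * X : ℕ) : ℝ)) := Real.log_nonneg (by linarith)
    linarith
  have hμ : 0 < 2 * (δ : ℝ) * L / ℓ ^ a := by positivity
  have hCr : (1 : ℝ) ≤ Cn := by exact_mod_cast hCn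
  have hG : Real.exp (2 * (Cn : ℝ) ^ 2 * (Real.log (Real.log ((20 * X : ℕ) : ℝ)) + 1)) ≤
      ℓ ^ (e + 1) := by
    have h1 : 2 * (Cn : ℝ) ^ 2 = (e : ℝ) := by rw [he]; push_cast; ring
    rw [h1, mul_add, mul_one, Real.exp_add, mul_comm (e : ℝ), Real.exp_mul,
      Real.exp_log (by linarith), Real.rpow_natCast]
    calc Real.log ((20 * X : ℕ) : ℝ) ^ e * Real.exp e ≤ (2 * ℓ) ^ e * Real.exp e :=
          mul_le_mul_of_nonneg_right (pow_le_pow_left₀ (by linarith) hY2 e) (Real.exp_pos _).le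
      _ = (Real.exp e * 2 ^ e) * ℓ ^ e := by rw [mul_pow]; ring
      _ ≤ ℓ * ℓ ^ e := mul_le_mul_of_nonneg_right lexp (by positivity)
      _ = _ := by ring
  have hmain := avb_le hP hP3 (Cn : ℝ) hCr hPc M hM0 Q W m1 m2 L K (mb * Q) R (20 * X) δ hW1 hPW
    (by omega) hδ _ hlamnn hsum V hVs (2 * (δ : ℝ) * L / ℓ ^ a) hμ _ rfl
  refine hmain.trans ?_
  rw [hmm]
  have hBS0 : 0 ≤ BS P M Q (2 * Cn) W := by
    unfold BS
    apply sum_nonneg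
    intro T _
    have := hM0 (W * TT T)
    positivity
  have hfin := avb_num b e B2 a U ha hU ℓ T X K L δ (Real.log ((20 * X : ℕ) : ℝ))
    (Real.log ((2 * (20 * X) : ℕ) : ℝ)) Q ((mb * Q : ℕ) : ℝ)
    (Real.exp (2 * (Cn : ℝ) ^ 2 * (Real.log (Real.log ((20 * X : ℕ) : ℝ)) + 1)))
    (BS P M Q (2 * Cn) W) V l5120 (heT _ he1) (by linarith) hδ0 hδr hL0 hKge
    ((hN1).trans hKL1) hKle (Nat.cast_nonneg _) hQ (Nat.cast_nonneg _) hmbQ (Real.exp_pos _).le hG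
    hBS0 (by
      refine hBS.trans ?_
      push_cast at hY1 ⊢
      apply div_le_div_of_nonneg_left (by positivity) (by positivity)
      exact pow_le_pow_left₀ (by linarith) hY1 _) hVle (by linarith) hY2 (by linarith) hY2'
  rw [← hℓ]
  refine le_trans (le_of_eq ?_) hfin
  push_cast
  ring

end Pool.Agent.H43.X6.BC
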