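import Pool.Agent.H43.X6.BC.F10

set_option autoImplicit false

/-! From the classes to almost all `a`. -/

namespace Pool.Agent.H43.X6.BC

open Pool.Agent.H43.BC

open Finset Filter

/-- there is `n` in `(M, M + (log X) ^ B]` such that at least `m` of the numbers `(n + h) ^ 2 + a`,
`h ∈ S`, are prime -/
def Clus (S : Finset ℕ) (m B X a M : ℕ) : Prop :=
  ∃ n : ℕ, M < n ∧ (n : ℝ) ≤ M + Real.log X ^ B ∧
    m ≤ (S.filter (fun h => Nat.Prime ((n + h) ^ 2 + a))).card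

open Classical in
theorem main (m : ℕ) : ∃ k B : ℕ, ∀ S : Finset ℕ, k ≤ S.card → ∀ ε η : ℝ, 0 < ε → 0 < η →
    ∃ X₀ : ℕ, ∀ X N : ℕ, X₀ ≤ X → (X : ℝ) ^ (1 / 6 + ε) ≤ N → N ^ 2 ≤ X →
    (((Icc 1 X).filter (fun a => η * N <
      (((Icc 1 N).filter (fun M => ¬ Clus S m B X a M)).card : ℝ))).card : ℝ) ≤ η * X := by
  obtain ⟨c0, hc0, zc, hzc⟩ := Wphi
  obtain ⟨K, hK⟩ : ∃ K, K = ⌈31680000 * (m : ℝ) / c0⌉₊ := ⟨_, rfl⟩
  have hK1 : 31680000 * (m : ℝ) < c0 * (K + 1) := by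
    have h1 : 31680000 * (m : ℝ) / c0 ≤ K := by rw [hK]; exact Nat.le_ceil _
    rw [div_le_iff₀ hc0] at h1
    nlinarith
  obtain ⟨b, hb⟩ : ∃ b, b = 12 * 2 ^ (2 * (2 * 2 ^ K)) + 4 := ⟨_, rfl⟩
  refine ⟨(2 * 2 ^ K).factorial * 2 ^ K, b + 3, fun S hS ε η hε hη => ?_⟩
  obtain ⟨D, hD⟩ : ∃ D, D = (2 * 2 ^ K).factorial := ⟨_, rfl⟩
  have hD0 : 0 < D := by rw [hD]; exact Nat.factorial_pos _
  rw [← hD] at hS
  obtain ⟨y, _, hy⟩ := exists_le_card_fiber_of_mul_le_card_of_maps_to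
    (s := S) (t := range D) (f := fun x => x % D) (n := 2 ^ K)
    (fun x _ => mem_range.2 (Nat.mod_lt _ hD0)) ⟨0, mem_range.2 hD0⟩ (by rw [card_range]; exact hS)
  obtain ⟨T, hT1, hT2⟩ := exists_subset_card_eq hy
  have hTS : T ⊆ S := hT1.trans (filter_subset _ _)
  have hTD : ∀ x ∈ T, x % D = y := fun x hx => (mem_filter.1 (hT1 hx)).2
  have hJ : Fintype.card ↥T = 2 ^ K := by rw [Fintype.card_coe, hT2]
  have hbJ : b = 12 * 2 ^ (Fintype.card (Fin 2 × Bool × ↥T)) + 4 := by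
    rw [hb, Fintype.card_prod, Fintype.card_prod, hJ, Fintype.card_fin, Fintype.card_bool]
  have hcong : ∀ p : ℕ, p.Prime → p ≤ 2 * Fintype.card ↥T → ∀ j j' : ↥T,
      (p : ℤ) ∣ (((j : ℕ)) : ℤ) - ((j' : ℕ) : ℤ) := by
    intro p hp hpl j j'
    rw [hJ] at hpl
    have h1 : p ∣ D := by rw [hD]; exact Nat.dvd_factorial hp.pos hpl
    have h2 : (j' : ℕ) ≡ (j : ℕ) [MOD D] := by
      unfold Nat.ModEq
      rw [hTD _ j.2, hTD _ j'.2]
    exact dvd_trans (by exact_mod_cast h1) h2.dvd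
  obtain ⟨θ, hθ⟩ : ∃ θ : ℝ, θ = min (1 / 2) (η ^ 2 / (176 * (2 ^ K + 1))) := ⟨_, rfl⟩
  have hθ0 : 0 < θ := by rw [hθ]; apply lt_min (by norm_num); positivity
  have hθ1 : θ ≤ 1 / 2 := by rw [hθ]; exact min_le_left _ _
  have hθ2 : 176 * ((2 : ℝ) ^ K + 1) * θ ≤ η ^ 2 := by
    have h1 : θ ≤ η ^ 2 / (176 * (2 ^ K + 1)) := by rw [hθ]; exact min_le_right _ _
    rw [le_div_iff₀ (by positivity)] at h1
    linarith
  obtain ⟨X0, hX0⟩ := class_thm (J := ↥T) K m hJ c0 hc0 zc hzc hK1 (fun j => (j : ℕ))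
    (fun j j' hjj h => hjj (Subtype.ext h)) hcong (T.sup id)
    (fun j => le_sup (f := id) j.2) b hbJ θ hθ0 hθ1 ε hε
  obtain ⟨XF, hXF⟩ := fct_evt b 0 0 0 ε (max 2 (2 / η)) hε
  refine ⟨max X0 XF, fun X N hX hN1 hN2 => ?_⟩
  have F := hXF X ((le_max_right _ _).trans hX) N hN1 hN2
  obtain ⟨t, ht⟩ : ∃ t, t = TX X := ⟨_, rfl⟩
  have hT := F.HT
  rw [pow_zero, mul_one, ← ht] at hT
  have ht2 : 2 ≤ t := (le_max_left _ _).trans hT
  have htη : 2 / η ≤ t := (le_max_right _ _).trans hT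
  have hR : (RX X : ℝ) ≤ t ^ 13 := by rw [ht]; exact F.R_le
  have hNt : t ^ 216 ≤ N := by rw [ht]; exact F.N_ge
  have htm : ∀ m n : ℕ, m ≤ n → t ^ m ≤ t ^ n := fun m n h => pow_le_pow_right₀ (by linarith) h
  have hN0 : (0 : ℝ) < N := lt_of_lt_of_le (by positivity) hNt
  have hRη : (RX X : ℝ) ≤ η / 2 * N := by
    have h1 : 2 ≤ t * η := by rwa [div_le_iff₀ hη] at htη
    calc (RX X : ℝ) ≤ t ^ 13 := hR
      _ = 1 * t ^ 13 := (one_mul _).symm
      _ ≤ (t * η / 2) * t ^ 13 := mul_le_mul_of_nonneg_right (by linarith) (by positivity)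
      _ = η / 2 * t ^ 14 := by ring
      _ ≤ η / 2 * t ^ 216 := mul_le_mul_of_nonneg_left (htm _ _ (by norm_num)) (by positivity)
      _ ≤ _ := mul_le_mul_of_nonneg_left hNt (by positivity)
  have hRN : RX X + 1 ≤ N := by
    have h1 : ((RX X + 1 : ℕ) : ℝ) ≤ N := by
      push_cast
      calc (RX X : ℝ) + 1 ≤ t ^ 13 + t ^ 13 := add_le_add hR (one_le_pow₀ (by linarith))
        _ = 2 * t ^ 13 := by ring
        _ ≤ t * t ^ 13 := mul_le_mul_of_nonneg_right ht2 (by positivity)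
        _ = t ^ 14 := by ring
        _ ≤ t ^ 216 := htm _ _ (by norm_num)
        _ ≤ N := hNt
    exact_mod_cast h1
  obtain ⟨m2, hm2, hm2N, hWG, hW1, hcls⟩ := hX0 X ((le_max_left _ _).trans hX) N hN1 hN2
    (RX X + 1) le_rfl hRN
  choose B hB1 hB2 hB3 using hcls
  obtain ⟨W, hW⟩ : ∃ W, W = WX X := ⟨_, rfl⟩
  rw [← hW] at hWG hW1 hB1 hB2 hB3
  obtain ⟨BB, hBB⟩ : ∃ BB, BB = (range W ×ˢ range W).biUnion (fun c => B c.1 c.2) := ⟨_, rfl⟩
  have hWr : (1 : ℝ) ≤ W := by exact_mod_cast hW1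
  have hBBc : (BB.card : ℝ) ≤ 88 * ((2 : ℝ) ^ K + 1) * θ * (N * X) := by
    have h1 : BB.card ≤ ∑ c ∈ range W ×ˢ range W, (B c.1 c.2).card := by
      rw [hBB]; exact card_biUnion_le
    calc (BB.card : ℝ) ≤ ((∑ c ∈ range W ×ˢ range W, (B c.1 c.2).card : ℕ) : ℝ) := by
          exact_mod_cast h1
      _ = ∑ c ∈ range W ×ˢ range W, ((B c.1 c.2).card : ℝ) := by push_cast; rfl
      _ ≤ ∑ c ∈ range W ×ˢ range W,
          44 * ((Fintype.card ↥T : ℝ) + 1) * θ *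
            (((m2 : ℝ) - ((RX X + 1 : ℕ) : ℝ)) * X / (W : ℝ) ^ 2) :=
          sum_le_sum fun c _ => hB2 c.1 c.2
      _ = 44 * ((2 : ℝ) ^ K + 1) * θ * (((m2 : ℝ) - ((RX X + 1 : ℕ) : ℝ)) * X) := by
          rw [sum_const, card_product, card_range, nsmul_eq_mul, hJ]
          push_cast
          field_simp
      _ ≤ 44 * ((2 : ℝ) ^ K + 1) * θ * ((2 * N) * X) := by gcongr
      _ = _ := by ring
  obtain ⟨A, hA⟩ : ∃ A, A = (Icc 1 X).filter (fun a => η * N <
      (((Icc 1 N).filter (fun M => ¬ Clus S m (b + 3) X a M)).card : ℝ)) := ⟨_, rfl⟩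
  rw [← hA]
  have hfa : ∀ a ∈ A, η / 2 * N ≤ ((BB.filter (fun n => n.2 = a)).card : ℝ) := by
    intro a ha
    rw [hA, mem_filter, mem_Icc] at ha
    obtain ⟨⟨ha1, ha2⟩, ha3⟩ := ha
    have hsub : (Icc 1 N).filter (fun M => ¬ Clus S m (b + 3) X a M) ⊆
        Icc 1 (RX X) ∪ (BB.filter (fun n => n.2 = a)).image Prod.fst := by
      intro M hM
      rw [mem_filter, mem_Icc] at hM
      obtain ⟨⟨hM1, hM2⟩, hM3⟩ := hM
      rw [mem_union]
      by_cases hMR : M ≤ RX X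
      · left
        exact mem_Icc.2 ⟨hM1, hMR⟩
      · right
        rw [mem_image]
        refine ⟨(M, a), ?_, rfl⟩
        rw [mem_filter]
        refine ⟨?_, rfl⟩
        have hmem : (M, a) ∈ CS (RX X + 1) m2 1 (X + 1) W (M % W) (a % W) := by
          unfold CS
          rw [mem_filter, mem_product, mem_Ico, mem_Ico]
          refine ⟨⟨⟨?_, ?_⟩, ha1, ?_⟩, (Nat.mod_modEq M W).symm, (Nat.mod_modEq a W).symm⟩
          · show RX X + 1 ≤ M
            omega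
          · show M < m2
            omega
          · show a < X + 1
            omega
        by_contra hnB
        have hnB' : (M, a) ∉ B (M % W) (a % W) := by
          intro h
          apply hnB
          rw [hBB, mem_biUnion]
          exact ⟨(M % W, a % W), mem_product.2 ⟨mem_range.2 (Nat.mod_lt _ hW1),
            mem_range.2 (Nat.mod_lt _ hW1)⟩, h⟩
        obtain ⟨i, hi1, hi2, hi3⟩ := hB3 _ _ (M, a) hmem hnB'
        apply hM3
        refine ⟨M + i, by omega, ?_, ?_⟩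
        · have h2 : (i : ℝ) ≤ ((W * GX b X : ℕ) : ℝ) := by exact_mod_cast hi2
          push_cast at h2 hWG ⊢
          linarith
        · refine hi3.trans ?_
          apply card_le_card_of_injOn (fun l : ↥T => (l : ℕ))
          · intro l hl
            have hl' := (mem_filter.1 (mem_coe.1 hl)).2
            rw [mem_coe, mem_filter]
            refine ⟨hTS l.2, ?_⟩
            rw [add_assoc]
            exact hl'
          · intro l _ l' _ hll
            exact Subtype.ext hll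
    have h1 := card_le_card hsub
    have h2 := card_union_le (Icc 1 (RX X)) ((BB.filter (fun n => n.2 = a)).image Prod.fst)
    have h3 : ((BB.filter (fun n => n.2 = a)).image Prod.fst).card ≤
        (BB.filter (fun n => n.2 = a)).card := card_image_le
    rw [Nat.card_Icc, Nat.add_sub_cancel] at h2
    have h4 : ((Icc 1 N).filter (fun M => ¬ Clus S m (b + 3) X a M)).card ≤
        RX X + (BB.filter (fun n => n.2 = a)).card := by omega
    have h5 : (((Icc 1 N).filter (fun M => ¬ Clus S m (b + 3) X a M)).card : ℝ) ≤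
        RX X + (BB.filter (fun n => n.2 = a)).card := by exact_mod_cast h4
    linarith
  have hsum : (A.card : ℝ) * (η / 2 * N) ≤ BB.card := by
    calc (A.card : ℝ) * (η / 2 * N) = ∑ _a ∈ A, η / 2 * N := by rw [sum_const, nsmul_eq_mul]
      _ ≤ ∑ a ∈ A, ((BB.filter (fun n => n.2 = a)).card : ℝ) := sum_le_sum hfa
      _ = ((BB.filter (fun n => n.2 ∈ A)).card : ℝ) := by
          rw [← sum_card_fiberwise_eq_card_filter]
          push_cast
          rfl
      _ ≤ BB.card := by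
          exact_mod_cast card_le_card (filter_subset _ _)
  have hfin : (A.card : ℝ) * (η / 2 * N) ≤ (η * X) * (η / 2 * N) := by
    calc (A.card : ℝ) * (η / 2 * N) ≤ 88 * ((2 : ℝ) ^ K + 1) * θ * (N * X) := hsum.trans hBBc
      _ = (176 * ((2 : ℝ) ^ K + 1) * θ) / 2 * (N * X) := by ring
      _ ≤ η ^ 2 / 2 * (N * X) := by gcongr
      _ = _ := by ring
  exact le_of_mul_le_mul_right hfin (by positivity)

end Pool.Agent.H43.X6.BC
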